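import Pool.Agent.Run7.h931.PS.Fin
import Pool.Agent.Run7.h931.GB.Nst

/-!
# Composites after primes, part 5: all lengths at once
-/

set_option autoImplicit false

namespace Pool.Agent.Run7.h931.PS

open Finset Filter
open Pool.Agent.Run7.h931.RS (Pw one_le_Pw ev_log)
open Pool.Agent.Run7.h931.RL (cls lf lft lft_eq)
open Pool.Agent.Run7.h931.GB (Om Qt Qt_nonneg Ab prj nest_det)

open Classical in
/-- the primes followed by at least `k` composites -/
noncomputable def pf {m : ℕ} (N M r : ℕ) (s : Fin m → ℕ) (k : ℕ) : ℕ :=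
  ((Icc 1 N).filter fun p => p.Prime ∧ p ≡ r [MOD M] ∧ ∀ j : Fin m, j.val < k → ¬ (p + s j).Prime).card

lemma pf_anti {m : ℕ} (N M r : ℕ) (s : Fin m → ℕ) (k k' : ℕ) (h : k ≤ k') : pf N M r s k' ≤ pf N M r s k := by
  unfold pf
  apply card_le_card
  intro n hn
  rw [mem_filter] at hn ⊢
  exact ⟨hn.1, hn.2.1, hn.2.2.1, fun j hj => hn.2.2.2 j (by omega)⟩

lemma pf_le {m : ℕ} (N M r : ℕ) (s : Fin m → ℕ) (k : ℕ) : pf N M r s k ≤ N := by
  have h1 : pf N M r s k ≤ (Icc 1 N).card := card_filter_le _ _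
  rw [Nat.card_Icc] at h1
  omega

lemma pf_ps {m : ℕ} (N M r : ℕ) (s : Fin m → ℕ) (k : ℕ) (hk : k ≤ m) : (ps N M r (fun i : Fin k => s (Fin.castLE hk i))).card = pf N M r s k := by
  unfold ps pf
  congr 1
  apply filter_congr
  intro n _
  constructor
  · rintro ⟨h1, h2, h3⟩
    exact ⟨h1, h2, fun j hj => h3 ⟨j.val, hj⟩⟩
  · rintro ⟨h1, h2, h3⟩
    exact ⟨h1, h2, fun i => h3 (Fin.castLE hk i) i.2⟩

open Classical in
/-- all lengths at once -/
theorem all_k (ε : ℝ) (hε : 0 < ε) (hε1 : ε ≤ 1) : ∃ w₀ : ℕ, ∀ T a w : ℕ, w₀ ≤ w → ∀ M : ℕ, 2 ≤ M →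
    (∀ p : ℕ, p.Prime → (p ∣ M ↔ p ≤ w)) → ∀ᶠ N : ℕ in atTop, ∀ q : ℕ, (N : ℝ) ≤ q * Real.log N ^ a → q ≤ N →
    ∀ (m : ℕ) (c b : ℕ → ℕ), (∀ j, b j ≤ T * N) → (∀ j < m, c j = j) → ∀ r < M, r.Coprime M →
      (((Om M q (fun j : Fin m => c j) (fun j : Fin m => b j)).filter fun s =>
        ¬ ∀ k ≤ m, Ab N ε (k / Real.log N ^ 2) (pf N M r s k)).card : ℝ) ≤
          ε * Qt M q (fun j : Fin m => c j) (fun j : Fin m => b j) := by
  obtain ⟨G, hG⟩ : ∃ G : ℕ, G = ⌈8 / ε⌉₊ := ⟨_, rfl⟩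
  have hG8 : 8 / ε ≤ G := by rw [hG]; exact Nat.le_ceil _
  have hG8' : 8 ≤ ε * G := by rwa [div_le_iff₀ hε, mul_comm] at hG8
  have hGr : (8 : ℝ) ≤ G := by nlinarith [Nat.cast_nonneg (α := ℝ) G]
  have hG0 : (0 : ℝ) < G := by linarith
  have hG1 : 1 ≤ G := by
    have : (1 : ℝ) ≤ G := by linarith
    exact_mod_cast this
  obtain ⟨e, he⟩ : ∃ e : ℝ, e = ε / (2 * (2 * G + 1)) := ⟨_, rfl⟩
  have he0 : 0 < e := by rw [he]; positivity
  have he1 : e * (2 * (2 * G + 1)) = ε := by rw [he]; field_simp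
  have he2 : e ≤ ε / 12 := by nlinarith
  obtain ⟨w₀, hw₀⟩ := fin_low e he0 (by linarith)
  refine ⟨w₀, fun T a w hw M hM1 hM => ?_⟩
  filter_upwards [hw₀ T a w hw M hM1 hM, fin_up e he0 T a w M (by omega) hM, eventually_ge_atTop 3, ev_log (4 * G + 1)] with
    N g1 g1' g2 g3 q hq hqN m c b hb hc r hr hrM
  obtain ⟨L, hL⟩ : ∃ L, L = Real.log (N : ℝ) := ⟨_, rfl⟩
  rw [← hL] at g3 ⊢
  have hL1 : 1 ≤ L := by linarith
  have hL0 : 0 < L := by linarith
  obtain ⟨Lk, hLk⟩ : ∃ Lk : ℕ → ℝ, Lk = fun k : ℕ => (k : ℝ) / L ^ 2 := ⟨_, rfl⟩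
  have hLm : Monotone Lk := by
    intro k k' h
    rw [hLk]
    have h1 : (k : ℝ) ≤ k' := by exact_mod_cast h
    exact div_le_div_of_nonneg_right h1 (by positivity)
  have hLz : Lk 0 = 0 := by
    rw [hLk]
    simp
  have hLs : ∀ k, Lk (k + 1) ≤ Lk k + 1 / (4 * G) := by
    intro k
    rw [hLk]
    simp only
    have h3 : 1 / L ^ 2 ≤ 1 / (4 * G) := by
      apply one_div_le_one_div_of_le (by positivity)
      nlinarith
    push_cast
    rw [add_div]
    linarith
  obtain ⟨κ, hκ⟩ : ∃ κ : ℕ → ℕ, κ = fun i : ℕ => Nat.findGreatest (fun k => Lk k ≤ (i : ℝ) / G) m := ⟨_, rfl⟩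
  have hκ1 : ∀ i, κ i ≤ m := by
    intro i
    rw [hκ]
    exact Nat.findGreatest_le m
  have hκ2 : ∀ i : ℕ, Lk (κ i) ≤ i / G := by
    intro i
    rw [hκ]
    exact Nat.findGreatest_spec (P := fun k => Lk k ≤ (i : ℝ) / G) (Nat.zero_le m) (by rw [hLz]; positivity)
  have hκ3 : ∀ i k : ℕ, k ≤ m → Lk k ≤ i / G → k ≤ κ i := by
    intro i k hk h
    rw [hκ]
    exact Nat.le_findGreatest hk h
  obtain ⟨Ω, hΩ⟩ : ∃ Ω, Ω = Om M q (fun j : Fin m => c j) (fun j : Fin m => b j) := ⟨_, rfl⟩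
  obtain ⟨Q, hQ⟩ : ∃ Q, Q = Qt M q (fun j : Fin m => c j) (fun j : Fin m => b j) := ⟨_, rfl⟩
  have hQ0 : 0 ≤ Q := by rw [hQ]; exact Qt_nonneg _ _ _ _
  rw [← hΩ, ← hQ]
  have hbad : ∀ i ∈ range (2 * G + 1), ((Ω.filter fun s => ¬ Ab N e (Lk (κ i)) (pf N M r s (κ i))).card : ℝ) ≤ 2 * e * Q := by
    intro i hi
    rw [mem_range] at hi
    obtain ⟨k, hk⟩ : ∃ k, k = κ i := ⟨_, rfl⟩
    have hkm : k ≤ m := by rw [hk]; exact hκ1 i
    rw [← hk]
    have h1 : Lk k ≤ 2 := by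
      rw [hk]
      refine (hκ2 i).trans ?_
      rw [div_le_iff₀ hG0]
      have : (i : ℝ) ≤ 2 * G := by exact_mod_cast (by omega : i ≤ 2 * G)
      exact this
    have h1' : (k : ℝ) ≤ 2 * L ^ 2 := by
      rw [hLk] at h1
      rwa [div_le_iff₀ (by positivity)] at h1
    have hQk : 0 ≤ Qt M q (fun j : Fin k => c j) (fun j : Fin k => b j) := Qt_nonneg _ _ _ _
    have h2 : (((Om M q (fun j : Fin k => c j) (fun j : Fin k => b j)).filter fun s =>
        ¬ Ab N e (Lk k) (ps N M r s).card).card : ℝ) ≤ 2 * e * Qt M q (fun j : Fin k => c j) (fun j : Fin k => b j) := by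
      have u1 : (((Om M q (fun j : Fin k => c j) (fun j : Fin k => b j)).filter fun s =>
          ¬ ((ps N M r s).card : ℝ) ≤ (N : ℝ) ^ (1 - Lk k + e)).card : ℝ) ≤ e / 2 * Qt M q (fun j : Fin k => c j) (fun j : Fin k => b j) := by
        have := g1' q hq hqN k c b hb (fun j hj => hc j (by omega)) (by rw [← hL]; exact h1') r
        rw [← hL] at this
        rw [hLk]
        exact this
      have u2 : (((Om M q (fun j : Fin k => c j) (fun j : Fin k => b j)).filter fun s =>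
          ¬ (Lk k ≤ 1 - e → (N : ℝ) ^ (1 - Lk k - e) ≤ (ps N M r s).card)).card : ℝ) ≤
            e / 2 * Qt M q (fun j : Fin k => c j) (fun j : Fin k => b j) := by
        by_cases hle : Lk k ≤ 1 - e
        · have hle' : (k : ℝ) ≤ (1 - e) * L ^ 2 := by
            have := hle
            rw [hLk] at this
            rwa [div_le_iff₀ (by positivity)] at this
          have v1 := g1 q hq hqN k (fun j : Fin k => c j) (fun j : Fin k => b j) (fun j => hb j) r hr hrM (by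
            rw [lft_eq]
            exact lft_id w M (by omega) hM c k (fun j hj => hc j (by omega)) r) (by rw [← hL]; exact hle')
          rw [← hL] at v1
          refine le_trans ?_ v1
          apply Nat.cast_le.2
          apply card_le_card
          intro s hs
          have hs1 := Finset.mem_filter.1 hs
          refine Finset.mem_filter.2 ⟨hs1.1, fun h => hs1.2 fun _ => ?_⟩
          rw [hLk]
          exact h
        · have : ((Om M q (fun j : Fin k => c j) (fun j : Fin k => b j)).filter fun s =>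
              ¬ (Lk k ≤ 1 - e → (N : ℝ) ^ (1 - Lk k - e) ≤ (ps N M r s).card)) = ∅ := by
            rw [filter_eq_empty_iff]
            intro s _
            rw [not_not]
            intro h
            exact absurd h hle
          rw [this, card_empty, Nat.cast_zero]
          positivity
      have hsub : ((Om M q (fun j : Fin k => c j) (fun j : Fin k => b j)).filter fun s => ¬ Ab N e (Lk k) (ps N M r s).card) ⊆
          ((Om M q (fun j : Fin k => c j) (fun j : Fin k => b j)).filter fun s => ¬ ((ps N M r s).card : ℝ) ≤ (N : ℝ) ^ (1 - Lk k + e)) ∪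
          ((Om M q (fun j : Fin k => c j) (fun j : Fin k => b j)).filter fun s =>
            ¬ (Lk k ≤ 1 - e → (N : ℝ) ^ (1 - Lk k - e) ≤ (ps N M r s).card)) := by
        intro s hs
        rw [mem_filter] at hs
        rw [mem_union, mem_filter, mem_filter]
        by_cases h3 : ((ps N M r s).card : ℝ) ≤ (N : ℝ) ^ (1 - Lk k + e)
        · exact Or.inr ⟨hs.1, fun h4 => hs.2 ⟨h4, h3⟩⟩
        · exact Or.inl ⟨hs.1, h3⟩
      have u3 := (card_le_card hsub).trans (card_union_le _ _)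
      have u4 : (((Om M q (fun j : Fin k => c j) (fun j : Fin k => b j)).filter fun s => ¬ Ab N e (Lk k) (ps N M r s).card).card : ℝ) ≤
          (((Om M q (fun j : Fin k => c j) (fun j : Fin k => b j)).filter fun s => ¬ ((ps N M r s).card : ℝ) ≤ (N : ℝ) ^ (1 - Lk k + e)).card : ℝ) +
          (((Om M q (fun j : Fin k => c j) (fun j : Fin k => b j)).filter fun s =>
            ¬ (Lk k ≤ 1 - e → (N : ℝ) ^ (1 - Lk k - e) ≤ (ps N M r s).card)).card : ℝ) := by exact_mod_cast u3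
      have u5 : 0 ≤ e * Qt M q (fun j : Fin k => c j) (fun j : Fin k => b j) := mul_nonneg he0.le hQk
      linarith
    have h3 := prj M q c b m k hkm (fun s => ¬ Ab N e (Lk k) (ps N M r s).card) (2 * e) h2
    rw [← hΩ, ← hQ] at h3
    refine le_trans ?_ h3
    apply Nat.cast_le.2
    apply card_le_card
    intro s hs
    have hs1 := Finset.mem_filter.1 hs
    refine Finset.mem_filter.2 ⟨hs1.1, ?_⟩
    rw [pf_ps]
    exact hs1.2
  have hsub : (Ω.filter fun s => ¬ ∀ k ≤ m, Ab N ε (k / L ^ 2) (pf N M r s k)) ⊆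
      (range (2 * G + 1)).biUnion fun i => Ω.filter fun s => ¬ Ab N e (Lk (κ i)) (pf N M r s (κ i)) := by
    intro s hs
    rw [mem_filter] at hs
    rw [mem_biUnion]
    by_contra hcon
    apply hs.2
    have hA : ∀ i ≤ 2 * G, Ab N e (Lk (κ i)) (pf N M r s (κ i)) := by
      intro i hi
      by_contra h
      apply hcon
      refine ⟨i, mem_range.2 (by omega), ?_⟩
      rw [mem_filter]
      exact ⟨hs.1, h⟩
    have h1 := nest_det N m G (by omega) hG1 ε e hε hε1 he0 he2 (by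
      rw [div_le_iff₀ hG0]
      exact hG8') Lk (fun k => pf N M r s k) (fun k k' h => pf_anti N M r s k k' h) (fun k => pf_le N M r s k) hLm hLz hLs κ hκ1 hκ2 hκ3 hA
    rw [hLk] at h1
    exact h1
  have h1 : ((((range (2 * G + 1)).biUnion fun i => Ω.filter fun s => ¬ Ab N e (Lk (κ i)) (pf N M r s (κ i))).card : ℕ) : ℝ) ≤
      ∑ i ∈ range (2 * G + 1), ((Ω.filter fun s => ¬ Ab N e (Lk (κ i)) (pf N M r s (κ i))).card : ℝ) := by
    exact_mod_cast card_biUnion_le
  have h2 : (((Ω.filter fun s => ¬ ∀ k ≤ m, Ab N ε (k / L ^ 2) (pf N M r s k)).card : ℕ) : ℝ) ≤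
      ((((range (2 * G + 1)).biUnion fun i => Ω.filter fun s => ¬ Ab N e (Lk (κ i)) (pf N M r s (κ i))).card : ℕ) : ℝ) := by
    exact_mod_cast card_le_card hsub
  refine h2.trans (h1.trans ((sum_le_sum hbad).trans ?_))
  rw [sum_const, card_range, nsmul_eq_mul]
  push_cast
  have h3 : (2 * (G : ℝ) + 1) * (2 * e * Q) = (e * (2 * (2 * G + 1))) * Q := by ring
  rw [h3, he1]

end Pool.Agent.Run7.h931.PS
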