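import Pool.Agent.Run7.h931.RL.Law
import Pool.Agent.Run7.h931.EX.Av

/-!
# Composites after primes, part 1: counting pairs in blocks
-/

set_option autoImplicit false

namespace Pool.Agent.Run7.h931.PS

open Finset Filter
open Pool.Agent.Run7.h931.RS (Pw Fw one_le_Pw one_le_Fw ev_log tri)
open Pool.Agent.Run7.h931.RL (Ca Da)

/-- pairs of primes in a progression, counted in blocks -/
lemma pcount (M ρ X R G B h : ℕ) (hM : 1 ≤ M) (hB : 1 ≤ B) (hGB : R ≤ G * B) (V : ℝ) (hV : 0 ≤ V)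
    (hCa : ∀ i < G, (Ca M ρ (M * (X + i * B) + ρ - 1) (M * B) (M * h) : ℝ) ≤ V * B) (hX : 1 ≤ X) :
    (((range (R - h)).filter fun k => (M * (X + k) + ρ).Prime ∧ (M * (X + k) + ρ + M * h).Prime).card : ℝ) ≤ V * ((R - h : ℕ) + B) := by
  classical
  obtain ⟨P, hP⟩ : ∃ P, P = (range (R - h)).filter fun k => (M * (X + k) + ρ).Prime ∧ (M * (X + k) + ρ + M * h).Prime := ⟨_, rfl⟩
  rw [← hP]
  have h1 : P.card = ∑ i ∈ range ((R - h) / B + 1), (P.filter fun k => k / B = i).card := by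
    apply card_eq_sum_card_fiberwise
    intro k hk
    have hk' : k ∈ P := by exact_mod_cast hk
    rw [hP, mem_filter, mem_range] at hk'
    have : k / B ∈ range ((R - h) / B + 1) := by
      rw [mem_range, Nat.lt_succ_iff]
      exact Nat.div_le_div_right (by omega)
    exact_mod_cast this
  have h2 : ∀ i ∈ range ((R - h) / B + 1), ((P.filter fun k => k / B = i).card : ℝ) ≤ V * B := by
    intro i _
    by_cases hi : i < G
    · refine le_trans ?_ (hCa i hi)
      apply Nat.cast_le.2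
      unfold Ca
      apply card_le_card_of_injOn (fun k => M * (X + k) + ρ)
      · intro k hk
        have hk' : k ∈ P.filter fun k => k / B = i := by exact_mod_cast hk
        rw [mem_filter, hP, mem_filter, mem_range] at hk'
        obtain ⟨⟨_, hk2, hk3⟩, hk4⟩ := hk'
        have hk5 : i * B ≤ k := by rw [← hk4]; exact Nat.div_mul_le_self k B
        have hk6 : k < i * B + B := by
          have := Nat.lt_mul_div_succ k (by omega : 0 < B)
          rw [hk4] at this
          calc k < B * (i + 1) := this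
            _ = i * B + B := by ring
        obtain ⟨r, hr⟩ : ∃ r, k = i * B + r := ⟨k - i * B, by omega⟩
        have hr2 : r + 1 ≤ B := by omega
        have hMr : M * r + M ≤ M * B := by
          calc M * r + M = M * (r + 1) := by ring
            _ ≤ M * B := Nat.mul_le_mul_left _ hr2
        have hpos : 1 ≤ M * (X + i * B) := Nat.mul_pos (by omega) (by omega)
        have hexp : M * (X + k) = M * (X + i * B) + M * r := by rw [hr]; ring
        have : M * (X + k) + ρ ∈ (Ioc (M * (X + i * B) + ρ - 1) (M * (X + i * B) + ρ - 1 + M * B)).filter fun t =>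
            (t.Prime ∧ (t + M * h).Prime) ∧ t ≡ ρ [MOD M] := by
          rw [mem_filter, mem_Ioc]
          refine ⟨⟨by omega, by omega⟩, ⟨hk2, hk3⟩, ?_⟩
          have := (Nat.modEq_zero_iff_dvd.2 (dvd_mul_right M (X + k))).add_right ρ
          rwa [zero_add] at this
        exact_mod_cast this
      · intro k _ k' _ hkk
        have := Nat.eq_of_mul_eq_mul_left (by omega : 0 < M) (Nat.add_right_cancel hkk)
        omega
    · have : (P.filter fun k => k / B = i) = ∅ := by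
        rw [filter_eq_empty_iff]
        intro k hk hki
        rw [hP, mem_filter, mem_range] at hk
        have h3 : i * B ≤ k := by rw [← hki]; exact Nat.div_mul_le_self k B
        have h4 : G * B ≤ i * B := Nat.mul_le_mul_right _ (by omega)
        omega
      rw [this, card_empty, Nat.cast_zero]
      positivity
  rw [h1]
  push_cast
  refine (sum_le_sum h2).trans ?_
  rw [sum_const, card_range, nsmul_eq_mul]
  push_cast
  have hBr : (0 : ℝ) < B := by exact_mod_cast hB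
  have h3 : (((R - h) / B : ℕ) : ℝ) * B ≤ ((R - h : ℕ) : ℝ) := by exact_mod_cast Nat.div_mul_le_self (R - h) B
  nlinarith

lemma swap_sum (R : ℕ) (f : ℕ → ℕ → ℝ) : ∑ k ∈ range R, ∑ h ∈ Icc 1 (R - 1 - k), f k h = ∑ h ∈ Icc 1 (R - 1), ∑ k ∈ range (R - h), f k h := by
  apply sum_comm'
  intro k h
  simp only [mem_range, mem_Icc]
  constructor
  · rintro ⟨h1, h2, h3⟩
    exact ⟨by omega, by omega, by omega⟩
  · rintro ⟨h1, h2, h3⟩
    exact ⟨by omega, by omega, by omega⟩

/-- the sum over the good pairs -/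
lemma good_pairs (R B : ℕ) (η V P : ℝ) (hη : 0 ≤ η) (hV : 0 ≤ V) (hP : 1 ≤ P) (w : ℕ)
    (hsh : ∀ H : ℕ, ∑ h ∈ Icc 1 H, (Real.exp (3 * (P * (Fw w h - 1))) - 1) ≤ η * H) (hBR : B ≤ R)
    (p : ℕ → ℝ) (hp : ∀ h ∈ Icc 1 (R - 1), p h ≤ V * Fw w h * ((R - h : ℕ) + B)) :
    ∑ h ∈ Icc 1 (R - 1), Real.exp (2 * P * (Fw w h - 1)) * p h ≤ V * ((R : ℝ) ^ 2 / 2 + B * R + 2 * η * (R : ℝ) ^ 2) := by
  have h1 : ∀ h ∈ Icc 1 (R - 1), Real.exp (2 * P * (Fw w h - 1)) * p h ≤
      V * ((((R - h : ℕ) : ℝ) + B) + 2 * R * (Real.exp (3 * (P * (Fw w h - 1))) - 1)) := by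
    intro h hh
    have a1 := one_le_Fw w h
    have a2 : 0 ≤ P * (Fw w h - 1) := mul_nonneg (by linarith) (by linarith)
    have a3 : Fw w h ≤ Real.exp (P * (Fw w h - 1)) := by
      have b1 := Real.add_one_le_exp (P * (Fw w h - 1))
      nlinarith
    have a4 : Real.exp (2 * P * (Fw w h - 1)) * Fw w h ≤ Real.exp (3 * (P * (Fw w h - 1))) := by
      have b1 : Real.exp (3 * (P * (Fw w h - 1))) = Real.exp (2 * P * (Fw w h - 1)) * Real.exp (P * (Fw w h - 1)) := by
        rw [← Real.exp_add]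
        congr 1
        ring
      rw [b1]
      exact mul_le_mul_of_nonneg_left a3 (Real.exp_pos _).le
    have a5 := mul_le_mul_of_nonneg_left (hp h hh) (Real.exp_pos (2 * P * (Fw w h - 1))).le
    refine a5.trans ?_
    obtain ⟨E, hE⟩ : ∃ E, E = Real.exp (3 * (P * (Fw w h - 1))) := ⟨_, rfl⟩
    obtain ⟨u, hu⟩ : ∃ u : ℝ, u = ((R - h : ℕ) : ℝ) + B := ⟨_, rfl⟩
    rw [← hE] at a4 ⊢
    rw [← hu]
    have hu0 : 0 ≤ u := by rw [hu]; positivity
    have hu2 : u ≤ 2 * R := by
      rw [hu]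
      have b1 : ((R - h : ℕ) : ℝ) ≤ R := by exact_mod_cast Nat.sub_le R h
      have b2 : (B : ℝ) ≤ R := by exact_mod_cast hBR
      linarith
    have hE1 : 1 ≤ E := by rw [hE]; exact Real.one_le_exp (by positivity)
    have b1 : Real.exp (2 * P * (Fw w h - 1)) * (V * Fw w h * u) = (V * u) * (Real.exp (2 * P * (Fw w h - 1)) * Fw w h) := by ring
    rw [b1]
    have b2 := mul_le_mul_of_nonneg_left a4 (mul_nonneg hV hu0)
    refine b2.trans ?_
    have b3 : u * (E - 1) ≤ 2 * R * (E - 1) := mul_le_mul_of_nonneg_right hu2 (by linarith)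
    have b4 := mul_le_mul_of_nonneg_left b3 hV
    nlinarith
  refine (sum_le_sum h1).trans ?_
  rw [← mul_sum]
  apply mul_le_mul_of_nonneg_left _ hV
  rw [sum_add_distrib, sum_add_distrib, ← mul_sum, sum_const, Nat.card_Icc, nsmul_eq_mul, Nat.add_sub_cancel]
  have h2 : ∑ h ∈ Icc 1 (R - 1), (((R - h : ℕ)) : ℝ) ≤ (R : ℝ) ^ 2 / 2 := by
    have a1 := swap_sum R (fun _ _ => (1 : ℝ))
    have a2 : ∑ h ∈ Icc 1 (R - 1), ∑ k ∈ range (R - h), (1 : ℝ) = ∑ h ∈ Icc 1 (R - 1), (((R - h : ℕ)) : ℝ) := by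
      apply sum_congr rfl
      intro h _
      rw [sum_const, card_range, nsmul_eq_mul, mul_one]
    rw [← a2, ← a1]
    have a3 : ∑ k ∈ range R, ∑ h ∈ Icc 1 (R - 1 - k), (1 : ℝ) = ∑ k ∈ range R, (((R - 1 - k : ℕ)) : ℝ) := by
      apply sum_congr rfl
      intro k _
      rw [sum_const, Nat.card_Icc, nsmul_eq_mul, mul_one, Nat.add_sub_cancel]
    rw [a3]
    exact tri R
  have h3 := hsh (R - 1)
  have h4 : (((R - 1 : ℕ)) : ℝ) ≤ R := by exact_mod_cast Nat.sub_le R 1
  have h5 : (((R - 1 : ℕ)) : ℝ) * B ≤ R * B := mul_le_mul_of_nonneg_right h4 (Nat.cast_nonneg _)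
  have h6 : η * (((R - 1 : ℕ)) : ℝ) ≤ η * R := mul_le_mul_of_nonneg_left h4 hη
  have h7 : 2 * (R : ℝ) * (∑ h ∈ Icc 1 (R - 1), (Real.exp (3 * (P * (Fw w h - 1))) - 1)) ≤ 2 * R * (η * R) :=
    mul_le_mul_of_nonneg_left (h3.trans h6) (by positivity)
  nlinarith

end Pool.Agent.Run7.h931.PS
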