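import Pool.Agent.Run7.h931.PS.Pri

/-!
# Composites after primes, part 4: the law
-/

set_option autoImplicit false

namespace Pool.Agent.Run7.h931.PS

open Finset Filter
open Pool.Agent.Run7.h931.RS (Pw Fw one_le_Pw one_le_Fw wt wt_nonneg ev_log sv cop cop_blk cop_mono)
open Pool.Agent.Run7.h931.RL (cls hitc hitc_sub Cr wt_empty tot_P lf lft sur rest lft_eq rest_eq sur_id markovC)
open Pool.Agent.Run7.h931.EX (sharpc)

lemma lft_id (w M : ℕ) (hM1 : 1 ≤ M) (hM : ∀ p : ℕ, p.Prime → (p ∣ M ↔ p ≤ w)) (c : ℕ → ℕ) (k : ℕ) (hc : ∀ j < k, c j = j) (n : ℕ) :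
    |Pw w * lft M c k n - k| ≤ M := by
  have h0 : lft M c k n = (cop M (n + M - 1) k).card := by
    unfold lft cop
    apply card_bij (fun j _ => n + M + j)
    · intro j hj
      rw [mem_filter, mem_range] at hj
      rw [mem_filter, mem_Ioc]
      refine ⟨by omega, ?_⟩
      rw [hc j hj.1] at hj
      rw [Nat.coprime_comm, show n + M + j = n + j + M * 1 by ring]
      exact (Nat.coprime_add_mul_left_left _ _ _).2 hj.2
    · intro j _ j' _ h
      simpa using h
    · intro t ht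
      rw [mem_filter, mem_Ioc] at ht
      refine ⟨t - (n + M), ?_, by omega⟩
      rw [mem_filter, mem_range]
      refine ⟨by omega, ?_⟩
      rw [hc _ (by omega)]
      have h1 : t = n + (t - (n + M)) + M * 1 := by omega
      have h2 := ht.2
      rw [Nat.coprime_comm, h1] at h2
      exact (Nat.coprime_add_mul_left_left _ _ _).1 h2
  have hP := tot_P w M hM1 hM
  have hP1 := one_le_Pw w
  have h3 : (cop M (n + M - 1) k).card ≤ (k / M + 1) * Nat.totient M := by
    rw [← cop_blk M (n + M - 1)]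
    exact card_le_card (cop_mono _ _ _ _ (by rw [mul_comm]; exact (Nat.lt_mul_div_succ k hM1).le))
  have h4 : (k / M) * Nat.totient M ≤ (cop M (n + M - 1) k).card := by
    rw [← cop_blk M (n + M - 1)]
    exact card_le_card (cop_mono _ _ _ _ (Nat.div_mul_le_self k M))
  rw [← h0] at h3 h4
  have h3' : (lft M c k n : ℝ) ≤ ((k / M : ℕ) + 1) * Nat.totient M := by exact_mod_cast h3
  have h4' : ((k / M : ℕ) : ℝ) * Nat.totient M ≤ lft M c k n := by exact_mod_cast h4
  have h5 : M * (k / M) ≤ k := Nat.mul_div_le k M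
  have h6 : k < M * (k / M + 1) := Nat.lt_mul_div_succ k hM1
  have h5' : (M : ℝ) * ((k / M : ℕ) : ℝ) ≤ k := by exact_mod_cast h5
  have h6' : (k : ℝ) < M * (((k / M : ℕ) : ℝ) + 1) := by exact_mod_cast h6
  have h7 := mul_le_mul_of_nonneg_left h3' (by linarith : (0 : ℝ) ≤ Pw w)
  have h8 := mul_le_mul_of_nonneg_left h4' (by linarith : (0 : ℝ) ≤ Pw w)
  have e7 : Pw w * (((k / M : ℕ) + 1) * Nat.totient M) = M * ((k / M : ℕ) : ℝ) + M := by
    calc Pw w * ((((k / M : ℕ) : ℝ) + 1) * Nat.totient M) = (Nat.totient M * Pw w) * ((k / M : ℕ) : ℝ) + Nat.totient M * Pw w := by ring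
      _ = _ := by rw [hP]
  have e8 : Pw w * (((k / M : ℕ) : ℝ) * Nat.totient M) = M * ((k / M : ℕ) : ℝ) := by
    calc Pw w * (((k / M : ℕ) : ℝ) * Nat.totient M) = (Nat.totient M * Pw w) * ((k / M : ℕ) : ℝ) := by ring
      _ = _ := by rw [hP]
  rw [e7] at h7
  rw [e8] at h8
  rw [abs_le]
  constructor <;> linarith

/-- the primes in a residue class which are followed by composites only -/
def ps {m : ℕ} (N M r : ℕ) (s : Fin m → ℕ) : Finset ℕ := (Icc 1 N).filter fun p => p.Prime ∧ p ≡ r [MOD M] ∧ ∀ j, ¬ (p + s j).Prime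

lemma ps_le {m : ℕ} (w M q : ℕ) (c b : Fin m → ℕ) (n : ℕ → ℕ) (A : Finset ℕ) (L δ K : ℝ) (S : Finset (Fin m))
    (hc : ∀ k ∈ A, ∀ j ∈ S, Cr w M L δ K q (c j) (b j) (n k))
    (he : ∀ k ∈ A, ∀ j ∉ S, hitc M (c j) (b j) q (n k) = ∅) (hU : ∀ j, 0 < (cls M (c j) (b j) q).card)
    (hinj : ∀ k k', n k = n k' → k = k') (N r : ℕ)
    (hnk : ∀ k ∈ A, 1 ≤ n k ∧ n k ≤ N ∧ (n k).Prime ∧ n k ≡ r [MOD M]) (s : Fin m → ℕ)
    (hs : s ∈ Fintype.piFinset fun j => cls M (c j) (b j) q) :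
    ∑ k ∈ A, ∏ j, wt (cls M (c j) (b j) q) (hitc M (c j) (b j) q (n k)) (s j) ≤
      ((ps N M r s).card : ℝ) * Real.exp ((1 + 3 * δ) * (Pw w / L) * S.card) := by
  classical
  rw [Fintype.mem_piFinset] at hs
  obtain ⟨β, hβ⟩ : ∃ β, β = (1 + 3 * δ) * (Pw w / L) := ⟨_, rfl⟩
  rw [← hβ]
  have h1 : ∀ k ∈ A, ∏ j, wt (cls M (c j) (b j) q) (hitc M (c j) (b j) q (n k)) (s j) ≤
      if n k ∈ ps N M r s then Real.exp (β * S.card) else 0 := by
    intro k hk
    obtain ⟨k1, k2, k3, k4⟩ := hnk k hk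
    by_cases hsv : n k ∈ ps N M r s
    · rw [if_pos hsv]
      calc ∏ j, wt (cls M (c j) (b j) q) (hitc M (c j) (b j) q (n k)) (s j) ≤
          ∏ j : Fin m, (if j ∈ S then Real.exp β else 1) := by
            apply Finset.prod_le_prod
            · exact fun j _ => wt_nonneg _ _ (hitc_sub M (c j) (b j) q (n k)) _
            · intro j _
              split_ifs with hj
              · rw [hβ]
                exact (hc k hk j hj).wt_le (s j) (hs j)
              · rw [he k hk j hj, wt_empty _ (hU j)]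
        _ = _ := by
            rw [prod_ite, prod_const, prod_const_one, mul_one, ← Real.exp_nat_mul, filter_mem_eq_inter, univ_inter]
            congr 1
            ring
    · rw [if_neg hsv]
      unfold ps at hsv
      rw [mem_filter] at hsv
      have hex : ∃ j, (n k + s j).Prime := by
        by_contra hcon
        push Not at hcon
        exact hsv ⟨mem_Icc.2 ⟨k1, k2⟩, k3, k4, hcon⟩
      obtain ⟨j, hj⟩ := hex
      apply le_of_eq
      apply prod_eq_zero (mem_univ j)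
      unfold wt
      rw [if_pos]
      unfold hitc
      rw [mem_filter]
      exact ⟨hs j, hj⟩
  refine (sum_le_sum h1).trans ?_
  rw [← sum_filter, sum_const, nsmul_eq_mul]
  apply mul_le_mul_of_nonneg_right _ (Real.exp_pos _).le
  have h2 : (A.filter fun k => n k ∈ ps N M r s).card ≤ (ps N M r s).card := by
    apply card_le_card_of_injOn n
    · intro k hk
      have hk' : k ∈ A.filter fun k => n k ∈ ps N M r s := by exact_mod_cast hk
      exact_mod_cast (mem_filter.1 hk').2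
    · intro k _ k' _ hkk
      exact hinj k k' hkk
  exact_mod_cast h2

/-- many primes below the threshold -/
theorem fin_low (ε : ℝ) (hε : 0 < ε) (hε1 : ε ≤ 1) : ∃ w₀ : ℕ, ∀ T a w : ℕ, w₀ ≤ w → ∀ M : ℕ, 2 ≤ M →
    (∀ p : ℕ, p.Prime → (p ∣ M ↔ p ≤ w)) → ∀ᶠ N : ℕ in atTop, ∀ q : ℕ, (N : ℝ) ≤ q * Real.log N ^ a → q ≤ N →
    ∀ (m : ℕ) (c b : Fin m → ℕ), (∀ j, b j ≤ T * N) → ∀ ρ < M, ρ.Coprime M → |Pw w * lf M c ρ - m| ≤ M →
      (m : ℝ) ≤ (1 - ε) * Real.log N ^ 2 →
      (open Classical in (((Fintype.piFinset fun j => cls M (c j) (b j) q).filter fun s =>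
        ¬ (N : ℝ) ^ (1 - m / Real.log N ^ 2 - ε) ≤ (ps N M ρ s).card).card : ℝ)) ≤ ε / 2 * ∏ j, ((cls M (c j) (b j) q).card : ℝ) := by
  classical
  obtain ⟨η, hη⟩ : ∃ η, η = ε / 400 := ⟨_, rfl⟩
  have hη0 : 0 < η := by rw [hη]; positivity
  have hη1 : η ≤ 1 / 400 := by rw [hη]; linarith
  obtain ⟨w₀, _, hw₀⟩ := sharpc 3 η (by norm_num) hη0
  refine ⟨w₀, fun T a w hw M hM1 hM => ?_⟩
  have hsh := hw₀ w hw
  have hP := one_le_Pw w
  obtain ⟨δ, hδ⟩ : ∃ δ, δ = η / (8 * Pw w) := ⟨_, rfl⟩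
  have hδ0 : 0 < δ := by rw [hδ]; positivity
  have hδη : δ ≤ η / 8 := by
    rw [hδ]
    apply div_le_div_of_nonneg_left hη0.le (by norm_num) (by linarith)
  have hδP : 4 * δ * Pw w = η / 2 := by rw [hδ]; field_simp; norm_num
  obtain ⟨K, hK, h1⟩ := prim_two T a w M hM1 hM (ε / 2) δ η (by linarith) hδ0 (by linarith) (by linarith) (by linarith) hη0 (by linarith) hsh (by
    rw [hδP]
    have := Real.abs_exp_sub_one_sub_id_le (x := η / 2) (by rw [abs_of_pos (by positivity)]; linarith)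
    have := (abs_le.1 this).2
    nlinarith)
  have hMr : (0 : ℝ) < M := by exact_mod_cast (by omega : 0 < M)
  filter_upwards [h1, eventually_ge_atTop 3, ev_log (2 * M / ε + 1), ev_log (1024 * M * Real.exp (4 * M) / (9 * ε ^ 2))] with
    N g1 g3 g4 g5 q hq hqN m c b hb ρ hρ hρc hlf hm
  obtain ⟨L, hL⟩ : ∃ L, L = Real.log (N : ℝ) := ⟨_, rfl⟩
  rw [← hL] at g4 g5 hm ⊢
  have hN0 : (0 : ℝ) < N := by exact_mod_cast (by omega : 0 < N)
  have hL1 : 1 ≤ L := by
    have : 0 ≤ 2 * M / ε := by positivity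
    linarith
  have hL0 : 0 < L := by linarith
  have hNL : (N : ℝ) = Real.exp L := by rw [hL, Real.exp_log hN0]
  have hML : 2 * (M : ℝ) ≤ ε * L := by
    have : 2 * M / ε ≤ L := by linarith
    rw [div_le_iff₀ hε] at this
    linarith
  have hML2 : (M : ℝ) ≤ ε / 2 * L ^ 2 := by nlinarith
  obtain ⟨S, hS⟩ : ∃ S : Finset (Fin m), S = univ.filter fun j => (ρ + c j).Coprime M := ⟨_, rfl⟩
  have hSc : S.card = lf M c ρ := by rw [hS]; rfl
  rw [← hSc] at hlf
  rw [abs_le] at hlf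
  obtain ⟨n, A, a1, a2, a3, a4, a4', a4'', a5⟩ := g1 q hq hqN m c b hb ρ hρ hρc S (fun j => by rw [hS, mem_filter]; simp) (by
    rw [← hL]
    linarith [hlf.2])
  rw [← hL] at a1 a4'
  have hQ0 : 0 ≤ ∏ j, ((cls M (c j) (b j) q).card : ℝ) := prod_nonneg fun _ _ => Nat.cast_nonneg _
  have hcard : (((Fintype.piFinset fun j => cls M (c j) (b j) q).filter fun s =>
        ¬ (N : ℝ) ^ (1 - m / L ^ 2 - ε) ≤ (ps N M ρ s).card).card : ℝ) ≤
        (((Fintype.piFinset fun j => cls M (c j) (b j) q).filter fun s => 1 / 2 * A.card <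
          |∑ k ∈ A, ∏ j, wt (cls M (c j) (b j) q) (hitc M (c j) (b j) q (n k)) (s j) - A.card|).card : ℝ) := by
    apply Nat.cast_le.2
    apply card_le_card
    intro s hs
    rw [mem_filter] at hs ⊢
    refine ⟨hs.1, ?_⟩
    by_contra hcon
    rw [not_lt, abs_le] at hcon
    apply hs.2
    have f1 := ps_le w M q c b n A L δ K S a4' a4'' a4 a3 N ρ a2 s hs.1
    have f2 : (1 + 3 * δ) * (Pw w / L) * S.card ≤ m / L + ε / 4 * L + 4 * M := by
      have e1 : (1 + 3 * δ) * (Pw w / L) * S.card = (Pw w * S.card) / L + 3 * δ * ((Pw w * S.card) / L) := by ring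
      have e2 : (Pw w * S.card) / L ≤ m / L + M := by
        rw [div_add' _ _ _ hL0.ne']
        apply div_le_div_of_nonneg_right _ hL0.le
        nlinarith [hlf.2]
      have e3 : (m : ℝ) / L ≤ L := by
        rw [div_le_iff₀ hL0]
        have : 0 ≤ ε * L ^ 2 := by positivity
        nlinarith
      have e4 : 3 * δ * ((Pw w * S.card) / L) ≤ 3 * δ * (L + M) := mul_le_mul_of_nonneg_left (by linarith) (by positivity)
      have e5 : 3 * δ * (L + M) ≤ ε / 4 * L + 3 * M := by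
        have e6 : 3 * δ * L ≤ ε / 4 * L := mul_le_mul_of_nonneg_right (by linarith) hL0.le
        have e7 : 3 * δ * M ≤ 3 * M := mul_le_mul_of_nonneg_right (by linarith) hMr.le
        linarith
      rw [e1]
      linarith
    have f3 := Real.exp_le_exp.2 f2
    have f4 : (0 : ℝ) ≤ (ps N M ρ s).card := Nat.cast_nonneg _
    have f5 : (N : ℝ) / (32 * M * L) ≤ ((ps N M ρ s).card : ℝ) * Real.exp (m / L + ε / 4 * L + 4 * M) := by
      have e1 := f1.trans (mul_le_mul_of_nonneg_left f3 f4)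
      have e2 : (N : ℝ) / (32 * M * L) = (N / (16 * M * L)) / 2 := by field_simp; norm_num
      linarith [hcon.1]
    rw [Real.rpow_def_of_pos hN0, ← hL]
    have f6 : 32 * M * L * Real.exp (4 * M) ≤ Real.exp (3 * ε / 4 * L) := by
      have e1 := Real.quadratic_le_exp_of_nonneg (by positivity : 0 ≤ 3 * ε / 4 * L)
      have e2 : 1024 * M * Real.exp (4 * M) ≤ L * (9 * ε ^ 2) := by rwa [div_le_iff₀ (by positivity)] at g5
      have e3 := mul_le_mul_of_nonneg_right e2 hL0.le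
      have e4 : (3 * ε / 4 * L) ^ 2 / 2 = L * (9 * ε ^ 2) * L / 32 := by ring
      have e5 : 0 ≤ 3 * ε / 4 * L := by positivity
      rw [e4] at e1
      have e6 : 32 * M * L * Real.exp (4 * M) = 1024 * M * Real.exp (4 * M) * L / 32 := by ring
      rw [e6]
      linarith
    have f7 : Real.exp (L * (1 - m / L ^ 2 - ε)) = Real.exp L * Real.exp (-(m / L + ε / 4 * L)) * Real.exp (-(3 * ε / 4 * L)) := by
      rw [← Real.exp_add, ← Real.exp_add]
      congr 1
      field_simp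
      ring
    rw [f7, ← hNL]
    have f8 : (N : ℝ) ≤ ((ps N M ρ s).card : ℝ) * Real.exp (m / L + ε / 4 * L) * Real.exp (3 * ε / 4 * L) := by
      rw [div_le_iff₀ (by positivity), Real.exp_add] at f5
      calc (N : ℝ) ≤ ((ps N M ρ s).card : ℝ) * (Real.exp (m / L + ε / 4 * L) * Real.exp (4 * M)) * (32 * M * L) := f5
        _ = ((ps N M ρ s).card : ℝ) * Real.exp (m / L + ε / 4 * L) * (32 * M * L * Real.exp (4 * M)) := by ring
        _ ≤ _ := mul_le_mul_of_nonneg_left f6 (mul_nonneg (Nat.cast_nonneg _) (Real.exp_pos _).le)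
    have f9 : 0 < Real.exp (-(m / L + ε / 4 * L)) * Real.exp (-(3 * ε / 4 * L)) := mul_pos (Real.exp_pos _) (Real.exp_pos _)
    have f10 := mul_le_mul_of_nonneg_right f8 f9.le
    have f11 : ((ps N M ρ s).card : ℝ) * Real.exp (m / L + ε / 4 * L) * Real.exp (3 * ε / 4 * L) *
        (Real.exp (-(m / L + ε / 4 * L)) * Real.exp (-(3 * ε / 4 * L))) = (ps N M ρ s).card := by
      have p1 : Real.exp (m / L + ε / 4 * L) * Real.exp (-(m / L + ε / 4 * L)) = 1 := by
        rw [← Real.exp_add, add_neg_cancel, Real.exp_zero]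
      have p2 : Real.exp (3 * ε / 4 * L) * Real.exp (-(3 * ε / 4 * L)) = 1 := by
        rw [← Real.exp_add, add_neg_cancel, Real.exp_zero]
      calc ((ps N M ρ s).card : ℝ) * Real.exp (m / L + ε / 4 * L) * Real.exp (3 * ε / 4 * L) *
          (Real.exp (-(m / L + ε / 4 * L)) * Real.exp (-(3 * ε / 4 * L))) =
          ((ps N M ρ s).card : ℝ) * (Real.exp (m / L + ε / 4 * L) * Real.exp (-(m / L + ε / 4 * L))) *
          (Real.exp (3 * ε / 4 * L) * Real.exp (-(3 * ε / 4 * L))) := by ring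
        _ = _ := by rw [p1, p2, mul_one, mul_one]
    rw [f11] at f10
    linarith
  refine hcard.trans ?_
  have h2 : (((Fintype.piFinset fun j => cls M (c j) (b j) q).filter fun s => 1 / 2 * A.card <
          |∑ k ∈ A, ∏ j, wt (cls M (c j) (b j) q) (hitc M (c j) (b j) q (n k)) (s j) - A.card|).card : ℝ) * (1 / 4) ≤
          40 * η * ∏ j, ((cls M (c j) (b j) q).card : ℝ) := by
    have : ((1 : ℝ) / 2) ^ 2 = 1 / 4 := by norm_num
    rw [this] at a5
    exact a5
  have h3 : 40 * η * ∏ j, ((cls M (c j) (b j) q).card : ℝ) = ε / 10 * ∏ j, ((cls M (c j) (b j) q).card : ℝ) := by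
    rw [hη]
    ring
  rw [h3] at h2
  nlinarith [mul_nonneg hε.le hQ0]

/-- few primes: the first moment -/
theorem fin_up (ε : ℝ) (hε : 0 < ε) (T a w M : ℕ) (hM1 : 1 ≤ M) (hM : ∀ p : ℕ, p.Prime → (p ∣ M ↔ p ≤ w)) :
    ∀ᶠ N : ℕ in atTop, ∀ q : ℕ, (N : ℝ) ≤ q * Real.log N ^ a → q ≤ N →
    ∀ (m : ℕ) (c b : ℕ → ℕ), (∀ j, b j ≤ T * N) → (∀ j < m, c j = j) → (m : ℝ) ≤ 2 * Real.log N ^ 2 → ∀ r : ℕ,
      (open Classical in (((Fintype.piFinset fun j : Fin m => cls M (c j) (b j) q).filter fun s =>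
        ¬ ((ps N M r s).card : ℝ) ≤ (N : ℝ) ^ (1 - m / Real.log N ^ 2 + ε)).card : ℝ)) ≤
          ε / 2 * ∏ j : Fin m, ((cls M (c j) (b j) q).card : ℝ) := by
  classical
  obtain ⟨K, hK, h1⟩ := markovC T a w M hM1 hM
  filter_upwards [h1, eventually_ge_atTop 3, ev_log ((M + 2 * K + Real.log (2 / ε)) / ε), ev_log (K + 1)] with
    N g1 g2 g3 g4 q hq hqN m c b hb hc hm r
  have k1 := g1 q hq hqN m (fun j : Fin m => c j) (fun j : Fin m => b j) (fun j => hb j)
  have k2 := sur_id w M hM1 hM c m hc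
  rw [rest_eq] at k1
  obtain ⟨L, hL⟩ : ∃ L, L = Real.log (N : ℝ) := ⟨_, rfl⟩
  rw [← hL] at g3 g4 hm k1 ⊢
  have hN0 : (0 : ℝ) < N := by exact_mod_cast (by omega : 0 < N)
  have hL1 : 1 ≤ L := by linarith
  have hL0 : 0 < L := by linarith
  have hNL : (N : ℝ) = Real.exp L := by rw [hL, Real.exp_log hN0]
  have hMr : (0 : ℝ) < M := by exact_mod_cast hM1
  obtain ⟨Ω, hΩ⟩ : ∃ Ω, Ω = Fintype.piFinset fun j : Fin m => cls M (c j) (b j) q := ⟨_, rfl⟩
  obtain ⟨Q, hQ⟩ : ∃ Q : ℝ, Q = ∏ j : Fin m, ((cls M (c j) (b j) q).card : ℝ) := ⟨_, rfl⟩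
  have hQ0 : 0 ≤ Q := by rw [hQ]; exact prod_nonneg fun _ _ => Nat.cast_nonneg _
  rw [← hΩ, ← hQ] at k1 ⊢
  obtain ⟨Y, hY⟩ : ∃ Y : ℝ, Y = (N : ℝ) ^ (1 - m / L ^ 2 + ε) := ⟨_, rfl⟩
  have hY0 : 0 < Y := by rw [hY]; exact Real.rpow_pos_of_pos hN0 _
  rw [← hY]
  have d1 : ((Ω.filter fun s => ¬ ((ps N M r s).card : ℝ) ≤ Y).card : ℝ) * Y ≤ ∑ s ∈ Ω, ((sv (Icc 1 N) s).card : ℝ) := by
    rw [← nsmul_eq_mul, ← sum_const]
    refine le_trans (sum_le_sum (fun s hs => ?_)) (sum_le_sum_of_subset_of_nonneg (filter_subset _ _) fun s _ _ => Nat.cast_nonneg _)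
    have h2 := (mem_filter.1 hs).2
    rw [not_le] at h2
    refine h2.le.trans ?_
    apply Nat.cast_le.2
    apply card_le_card
    intro p hp
    unfold ps at hp
    unfold sv
    rw [mem_filter] at hp ⊢
    exact ⟨hp.1, hp.2.2.2⟩
  have d2 := d1.trans k1
  have hKL : K / L ≤ 1 := by rw [div_le_one hL0]; linarith
  rw [abs_le] at k2
  have d3 : -(Pw w * sur M c m / L * (1 - K / L)) ≤ -(m / L) + M + 2 * K := by
    have e1 : (m - M : ℝ) / L * (1 - K / L) ≤ Pw w * sur M c m / L * (1 - K / L) := by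
      apply mul_le_mul_of_nonneg_right _ (by linarith)
      apply div_le_div_of_nonneg_right _ hL0.le
      linarith [k2.1]
    have e2 : (m - M : ℝ) / L * (1 - K / L) = m / L - M / L * (1 - K / L) - m / L ^ 2 * K := by
      field_simp
      ring
    have e3 : (M : ℝ) / L * (1 - K / L) ≤ M * 1 := by
      apply mul_le_mul _ _ (by linarith) hMr.le
      · exact div_le_self hMr.le hL1
      · have : 0 ≤ K / L := by positivity
        linarith
    have e4 : (m : ℝ) / L ^ 2 * K ≤ 2 * K := by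
      apply mul_le_mul_of_nonneg_right _ hK
      rw [div_le_iff₀ (by positivity)]
      exact hm
    linarith
  have d4 : (N : ℝ) * (Real.exp (-(Pw w * sur M c m / L * (1 - K / L))) * Q) ≤ (ε / 2 * Q) * Y := by
    have e1 : (N : ℝ) * Real.exp (-(Pw w * sur M c m / L * (1 - K / L))) ≤ ε / 2 * Y := by
      rw [hY, Real.rpow_def_of_pos hN0, ← hL]
      have e2 : ε / 2 = Real.exp (-Real.log (2 / ε)) := by
        rw [Real.exp_neg, Real.exp_log (by positivity), inv_div]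
      rw [e2, ← Real.exp_add]
      nth_rewrite 1 [hNL]
      rw [← Real.exp_add]
      apply Real.exp_le_exp.2
      rw [div_le_iff₀ hε] at g3
      have e3 : L * (1 - m / L ^ 2 + ε) = L - m / L + L * ε := by field_simp
      rw [e3]
      linarith
    have e5 := mul_le_mul_of_nonneg_right e1 hQ0
    calc (N : ℝ) * (Real.exp (-(Pw w * sur M c m / L * (1 - K / L))) * Q) =
        (N : ℝ) * Real.exp (-(Pw w * sur M c m / L * (1 - K / L))) * Q := by ring
      _ ≤ ε / 2 * Y * Q := e5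
      _ = _ := by ring
  exact le_of_mul_le_mul_right (d2.trans d4) hY0

end Pool.Agent.Run7.h931.PS
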