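import Pool.Agent.Run7.h931.PS.Two

/-!
# Composites after primes, part 3: the second moment over the primes
-/

set_option autoImplicit false

namespace Pool.Agent.Run7.h931.PS

open Finset Filter
open Pool.Agent.Run7.h931.RS (Pw Fw one_le_Pw one_le_Fw wt wt_nonneg wt_sum ev_log cheb pairs_sum sieve moments bad_sum tri Cc)
open Pool.Agent.Run7.h931.RL (Ca Da cls hitc hitc_sub hitc_empty Cr cr_ev cls_pos prod_expS wt_ones Fw_mulM Ca_le_Cc hl_ap pa_lo tot_P)

/-- the primes in a block progression -/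
lemma A_card (M ρ X R : ℕ) (hM : 1 ≤ M) (hX : 1 ≤ X) :
    Da M ρ (M * X + ρ - 1) (M * R) ≤ ((range R).filter fun k => (M * (X + k) + ρ).Prime).card := by
  classical
  unfold Da
  have hpos : 1 ≤ M * X := Nat.mul_pos (by omega) (by omega)
  have key : ∀ t, t ∈ (Ioc (M * X + ρ - 1) (M * X + ρ - 1 + M * R)).filter (fun t => t.Prime ∧ t ≡ ρ [MOD M]) →
      ∃ k < R, t = M * (X + k) + ρ := by
    intro t ht
    rw [mem_filter, mem_Ioc] at ht
    obtain ⟨⟨h1, h2⟩, _, h3⟩ := ht
    have h4 : M ∣ t - ρ := (Nat.modEq_iff_dvd' (by omega)).1 h3.symm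
    obtain ⟨y, hy⟩ := h4
    have h5 : t = M * y + ρ := by omega
    have h6 : X ≤ y := by
      by_contra hcon
      have : M * (y + 1) ≤ M * X := Nat.mul_le_mul_left _ (by omega)
      have h7 : M * (y + 1) = M * y + M := by ring
      omega
    obtain ⟨k, rfl⟩ : ∃ k, y = X + k := ⟨y - X, by omega⟩
    refine ⟨k, ?_, h5⟩
    by_contra hcon
    have h7 : M * R ≤ M * k := Nat.mul_le_mul_left _ (by omega)
    have h8 : M * (X + k) = M * X + M * k := by ring
    omega
  apply card_le_card_of_injOn (fun t => (t - ρ) / M - X)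
  · intro t ht
    have ht' : t ∈ (Ioc (M * X + ρ - 1) (M * X + ρ - 1 + M * R)).filter (fun t => t.Prime ∧ t ≡ ρ [MOD M]) := by exact_mod_cast ht
    obtain ⟨k, hk, hk2⟩ := key t ht'
    have h1 : (t - ρ) / M - X = k := by
      rw [hk2, Nat.add_sub_cancel, Nat.mul_div_cancel_left _ (by omega), Nat.add_sub_cancel_left]
    have : (t - ρ) / M - X ∈ (range R).filter fun k => (M * (X + k) + ρ).Prime := by
      rw [h1, mem_filter, mem_range, ← hk2]
      rw [mem_filter] at ht'
      exact ⟨hk, ht'.2.1⟩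
    exact_mod_cast this
  · intro t ht t' ht' h
    have ht1 : t ∈ (Ioc (M * X + ρ - 1) (M * X + ρ - 1 + M * R)).filter (fun t => t.Prime ∧ t ≡ ρ [MOD M]) := by exact_mod_cast ht
    have ht1' : t' ∈ (Ioc (M * X + ρ - 1) (M * X + ρ - 1 + M * R)).filter (fun t => t.Prime ∧ t ≡ ρ [MOD M]) := by
      exact_mod_cast ht'
    obtain ⟨k, _, hk⟩ := key t ht1
    obtain ⟨k', _, hk'⟩ := key t' ht1'
    simp only at h
    rw [hk, hk', Nat.add_sub_cancel, Nat.add_sub_cancel, Nat.mul_div_cancel_left _ (by omega), Nat.mul_div_cancel_left _ (by omega),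
      Nat.add_sub_cancel_left, Nat.add_sub_cancel_left] at h
    rw [hk, hk', h]

/-- the second moment over the primes below the threshold -/
theorem prim_two (T a w M : ℕ) (hM1 : 2 ≤ M) (hM : ∀ p : ℕ, p.Prime → (p ∣ M ↔ p ≤ w))
    (ε δ η : ℝ) (hε1 : ε ≤ 1) (hδ : 0 < δ) (hδ1 : δ ≤ 1 / 4) (hδε : 6 * δ ≤ ε) (hδη' : δ ≤ η)
    (hη : 0 < η) (hη1 : η ≤ 1 / 200)
    (hsh : ∀ H : ℕ, ∑ h ∈ Icc 1 H, (Real.exp (3 * (Pw w * (Fw w h - 1))) - 1) ≤ η * H) (hδη : Real.exp (4 * δ * Pw w) ≤ 1 + η) :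
    ∃ K : ℝ, 0 ≤ K ∧ ∀ᶠ N : ℕ in atTop, ∀ q : ℕ, (N : ℝ) ≤ q * Real.log N ^ a → q ≤ N → ∀ (m : ℕ) (c b : Fin m → ℕ),
      (∀ j, b j ≤ T * N) → ∀ ρ < M, ρ.Coprime M → ∀ S : Finset (Fin m), (∀ j, j ∈ S ↔ (ρ + c j).Coprime M) →
      Pw w * S.card ≤ (1 - ε) * Real.log N ^ 2 → ∃ (n : ℕ → ℕ) (A : Finset ℕ), (N : ℝ) / (16 * M * Real.log N) ≤ A.card ∧
        (∀ k ∈ A, 1 ≤ n k ∧ n k ≤ N ∧ (n k).Prime ∧ n k ≡ ρ [MOD M]) ∧ (∀ k k', n k = n k' → k = k') ∧
        (∀ j, 0 < (cls M (c j) (b j) q).card) ∧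
        (∀ k ∈ A, ∀ j ∈ S, Cr w M (Real.log N) δ K q (c j) (b j) (n k)) ∧
        (∀ k ∈ A, ∀ j ∉ S, hitc M (c j) (b j) q (n k) = ∅) ∧
        (((Fintype.piFinset fun j => cls M (c j) (b j) q).filter fun s => 1 / 2 * A.card <
          |∑ k ∈ A, ∏ j, wt (cls M (c j) (b j) q) (hitc M (c j) (b j) q (n k)) (s j) - A.card|).card : ℝ) *
          (1 / 2) ^ 2 ≤ 40 * η * ∏ j, ((cls M (c j) (b j) q).card : ℝ) := by
  classical
  obtain ⟨K, hK, h1⟩ := cr_ev T a w M (by omega) hM δ hδ hδ1
  obtain ⟨C₀, hC₀, h2⟩ := sieve a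
  obtain ⟨K2, hK2, h4⟩ := pa_lo 1 1 M (by omega)
  have hMr : (0 : ℝ) < M := by exact_mod_cast (by omega : 0 < M)
  obtain ⟨Km, hKm, h3⟩ := moments (2 * (2 * M * C₀)) (by positivity) C₀
  have hP := one_le_Pw w
  obtain ⟨G, hG⟩ : ∃ G : ℕ, G = ⌈2 / η⌉₊ := ⟨_, rfl⟩
  have hGη : 2 ≤ η * G := by
    have : 2 / η ≤ G := by rw [hG]; exact Nat.le_ceil _
    rwa [div_le_iff₀ hη, mul_comm] at this
  have hG1 : 1 ≤ G := by
    rw [hG, Nat.one_le_ceil_iff]
    positivity
  have hGr : (1 : ℝ) ≤ G := by exact_mod_cast hG1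
  have hφ : (0 : ℝ) < Nat.totient M := by exact_mod_cast Nat.totient_pos.2 (by omega : 0 < M)
  have htot := tot_P w M (by omega) hM
  have hMφ : (M : ℝ) / Nat.totient M = Pw w := by
    rw [← htot]
    field_simp
  refine ⟨K, hK, ?_⟩
  filter_upwards [h1, h2, hl_ap T a 10 w M (by omega) hM δ hδ, hl_ap 1 1 10 w M (by omega) hM δ hδ, h4,
    ev_log (8 * M * (1 + Km) / η + 1), ev_log (216 * (8 * M / η) / ε ^ 3), ev_log (8 * G + K2 / η),
    Pool.Agent.Run7.h931.RL.ev_pow a (M + 1) (by positivity), eventually_ge_atTop 3, eventually_ge_atTop (16 * M * (G + 2)),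
    eventually_ge_atTop (2 * w + 2)] with
    N g1 g2 g3 g3' g9 g4 g5 g11 g10 g6 g7 g8 q hq hqN m c b hb ρ hρ hρc S hS hm
  obtain ⟨L, hL⟩ : ∃ L, L = Real.log (N : ℝ) := ⟨_, rfl⟩
  have hN0 : (0 : ℝ) < N := by exact_mod_cast (by omega : 0 < N)
  have hε0 : 0 < ε := by linarith
  have hL8 : 8 * (G : ℝ) ≤ L := by
    rw [hL]
    have : 0 ≤ K2 / η := by positivity
    linarith
  have hL1 : 1 ≤ L := by linarith
  have hL0 : 0 < L := by linarith
  have hLK : K2 ≤ η * L := by
    have : K2 / η ≤ L := by rw [hL]; linarith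
    rwa [div_le_iff₀ hη, mul_comm] at this
  have hρ1 : 1 ≤ ρ := by
    rcases Nat.eq_zero_or_pos ρ with h0 | h0
    · rw [h0, Nat.coprime_zero_left] at hρc
      omega
    · exact h0
  obtain ⟨X, hX⟩ : ∃ X, X = N / (2 * M) + 1 := ⟨_, rfl⟩
  obtain ⟨n, hn⟩ : ∃ n : ℕ → ℕ, n = fun k => M * (X + k) + ρ := ⟨_, rfl⟩
  obtain ⟨R, hR⟩ : ∃ R : ℕ, R = N / (4 * M) := ⟨_, rfl⟩
  have hN16 : 16 * M * (G + 2) ≤ N := g7
  have hN16' : 16 * M * G + 32 * M ≤ N := by
    calc 16 * M * G + 32 * M = 16 * M * (G + 2) := by ring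
      _ ≤ N := g7
  have hRr : (N : ℝ) / (8 * M) ≤ R := by
    have a1 : (N : ℝ) < (4 * M : ℕ) * ((R : ℝ) + 1) := by rw [hR]; exact_mod_cast Nat.lt_mul_div_succ N (by omega)
    have a2 : (8 * M : ℝ) ≤ N := by exact_mod_cast (by nlinarith : 8 * M ≤ N)
    rw [div_le_iff₀ (by positivity)]
    push_cast at a1
    nlinarith
  have hR0 : 0 < R := by
    have : (0 : ℝ) < R := lt_of_lt_of_le (by positivity) hRr
    exact_mod_cast this
  have hRr0 : (0 : ℝ) < R := by exact_mod_cast hR0
  have hMX : N < 2 * (M * X) := by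
    have := Nat.lt_mul_div_succ N (by omega : 0 < 2 * M)
    rw [← hX] at this
    calc N < 2 * M * X := this
      _ = _ := by ring
  have hMX2 : 2 * (M * X) ≤ N + 2 * M := by
    have := Nat.mul_div_le N (2 * M)
    calc 2 * (M * X) = 2 * M * (N / (2 * M)) + 2 * M := by rw [hX]; ring
      _ ≤ _ := by omega
  have hMR : 4 * (M * R) ≤ N := by
    have := Nat.mul_div_le N (4 * M)
    rw [← hR] at this
    calc 4 * (M * R) = 4 * M * R := by ring
      _ ≤ N := this
  have hnk : ∀ k < R, N ≤ 2 * n k ∧ n k ≤ N := by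
    intro k hk
    rw [hn]
    simp only
    have a1 : M * k ≤ M * R := Nat.mul_le_mul_left _ hk.le
    have a2 : M * (X + k) = M * X + M * k := by ring
    constructor
    · omega
    · omega
  have hcop : ∀ k j, (n k + c j).Coprime M ↔ j ∈ S := by
    intro k j
    rw [hS, hn]
    simp only
    rw [show M * (X + k) + ρ + c j = ρ + c j + M * (X + k) by ring]
    exact Nat.coprime_add_mul_left_left _ _ _
  have hcd : ∀ k < R, ∀ j ∈ S, Cr w M L δ K q (c j) (b j) (n k) := by
    intro k hk j hj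
    obtain ⟨a1, a2⟩ := hnk k hk
    rw [hL]
    exact g1 q hq hqN (c j) (b j) (n k) (hb j) a2 a1 ((hcop k j).2 hj)
  have hemp : ∀ k < R, ∀ j ∉ S, hitc M (c j) (b j) q (n k) = ∅ := by
    intro k hk j hj
    obtain ⟨a1, a2⟩ := hnk k hk
    exact hitc_empty w M (c j) (b j) q (n k) hM (by omega) (fun h => hj ((hcop k j).1 h))
  have hMq : M < q := by
    have a1 : ((M : ℝ) + 1) * Real.log N ^ a ≤ q * Real.log N ^ a := g10.trans hq
    have a2 : (0 : ℝ) < Real.log N ^ a := by
      rw [← hL]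
      positivity
    have a3 := le_of_mul_le_mul_right a1 a2
    have a4 : M + 1 ≤ q := by exact_mod_cast a3
    omega
  have hU : ∀ j, 0 < (cls M (c j) (b j) q).card := fun j => cls_pos M (c j) (b j) q (by omega) hMq
  have hqa := hq
  rw [← hL] at g4 g5 hm ⊢
  have hm2P : Pw w * (S.card : ℝ) ≤ L ^ 2 := by
    have : 0 ≤ ε * L ^ 2 := by positivity
    linarith
  have hS0 : (0 : ℝ) ≤ S.card := Nat.cast_nonneg _
  have hm2 : (S.card : ℝ) ≤ L ^ 2 := by nlinarith
  -- the blocks
  obtain ⟨B, hB⟩ : ∃ B : ℕ, B = R / G + 1 := ⟨_, rfl⟩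
  have hB1 : 1 ≤ B := by rw [hB]; exact Nat.le_add_left 1 _
  have hX1 : 1 ≤ X := by rw [hX]; exact Nat.le_add_left 1 _
  have hGB : R ≤ G * B := by
    rw [hB]
    exact (Nat.lt_mul_div_succ R (by omega : 0 < G)).le
  have hGR : G ≤ R := by
    rw [hR, Nat.le_div_iff_mul_le (by omega)]
    nlinarith
  have hBR : G * B ≤ 2 * R := by
    rw [hB, mul_add, mul_one]
    have := Nat.mul_div_le R G
    omega
  have hBR' : B ≤ 2 * R := le_trans (Nat.le_mul_of_pos_left B (by omega)) hBR
  have hMB : (N : ℝ) ≤ (M * B : ℕ) * Real.log N ^ 1 := by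
    rw [← hL, pow_one]
    have a1 : (R : ℝ) ≤ G * B := by exact_mod_cast hGB
    have a2 : (N : ℝ) ≤ 8 * M * R := by
      rw [div_le_iff₀ (by positivity)] at hRr
      linarith
    push_cast
    calc (N : ℝ) ≤ 8 * M * R := a2
      _ ≤ 8 * M * (G * B) := mul_le_mul_of_nonneg_left a1 (by positivity)
      _ = M * B * (8 * G) := by ring
      _ ≤ M * B * L := mul_le_mul_of_nonneg_left hL8 (by positivity)
  have hMBN : M * B ≤ N := by
    have : M * B ≤ M * (2 * R) := Nat.mul_le_mul_left _ hBR'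
    have e1 : M * (2 * R) = 2 * (M * R) := by ring
    omega
  have hEb : ∀ i : ℕ, ∃ E : Finset ℕ, i < G → ((E.card : ℝ) ≤ N / L ^ 10 ∧ ∀ h : ℕ, 1 ≤ h → h ≤ N → h ∉ E →
      ∀ r : ℕ, r.Coprime M → (r + h).Coprime M → (Ca M r (M * (X + i * B) + ρ - 1) (M * B) h : ℝ) ≤
        (1 + δ) * (Pw w / Nat.totient M * Fw w h) * ((M * B : ℕ) / L ^ 2)) := by
    intro i
    by_cases hi : i < G
    · have a1 : M * (i * B) ≤ M * (2 * R) := Nat.mul_le_mul_left _ ((Nat.mul_le_mul_right B hi.le).trans hBR)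
      have a2 : M * (X + i * B) = M * X + M * (i * B) := by ring
      have a3 : M * (2 * R) = 2 * (M * R) := by ring
      obtain ⟨E, hE1, hE2⟩ := g3' (M * (X + i * B) + ρ - 1) (M * B) (by omega) (by omega) hMB hMBN
      rw [← hL] at hE1 hE2
      exact ⟨E, fun _ => ⟨hE1, hE2⟩⟩
    · exact ⟨∅, fun h => absurd h hi⟩
  choose Eb hEb using hEb
  -- the exceptional differences
  have hE : ∀ (k : ℕ) (j : Fin m), ∃ E : Finset ℕ, k < R → ((E.card : ℝ) ≤ N / L ^ 10 ∧ ∀ h : ℕ, 1 ≤ h → h ≤ N → h ∉ E →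
      ∀ r : ℕ, r.Coprime M → (r + h).Coprime M → (Ca M r (n k + b j) q h : ℝ) ≤ (1 + δ) * (Pw w / Nat.totient M * Fw w h) * (q / L ^ 2)) := by
    intro k j
    by_cases hk : k < R
    · obtain ⟨a1, a2⟩ := hnk k hk
      obtain ⟨E, hE1, hE2⟩ := g3 (n k + b j) q (by omega) (by nlinarith [hb j]) hqa hqN
      rw [← hL] at hE1 hE2
      exact ⟨E, fun _ => ⟨hE1, hE2⟩⟩
    · exact ⟨∅, fun h => absurd h hk⟩
  choose E hE using hE
  obtain ⟨Es, hEs⟩ : ∃ Es : Finset ℕ, Es = (range G).biUnion Eb := ⟨_, rfl⟩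
  obtain ⟨F, hF⟩ : ∃ F : ℕ → Finset ℕ, F = fun k => S.biUnion (E k) ∪ Es := ⟨_, rfl⟩
  have hFc : ∀ k < R, ((F k).card : ℝ) ≤ 2 * (N / L ^ 8) := by
    intro k hk
    have a1 : (((S.biUnion (E k)).card : ℕ) : ℝ) ≤ ∑ j ∈ S, ((E k j).card : ℝ) := by exact_mod_cast card_biUnion_le
    have a2 : ((Es.card : ℕ) : ℝ) ≤ ∑ i ∈ range G, ((Eb i).card : ℝ) := by
      rw [hEs]
      exact_mod_cast card_biUnion_le
    have a3 : ∑ j ∈ S, ((E k j).card : ℝ) ≤ L ^ 2 * (N / L ^ 10) := by
      refine (sum_le_sum fun j _ => (hE k j hk).1).trans ?_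
      rw [sum_const, nsmul_eq_mul]
      exact mul_le_mul_of_nonneg_right hm2 (by positivity)
    have a4 : ∑ i ∈ range G, ((Eb i).card : ℝ) ≤ L ^ 2 * (N / L ^ 10) := by
      refine (sum_le_sum fun i hi => (hEb i (mem_range.1 hi)).1).trans ?_
      rw [sum_const, card_range, nsmul_eq_mul]
      apply mul_le_mul_of_nonneg_right _ (by positivity)
      nlinarith
    have a5 : ((F k).card : ℝ) ≤ (S.biUnion (E k)).card + Es.card := by
      rw [hF]
      exact_mod_cast card_union_le _ _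
    have a6 : L ^ 2 * (N / L ^ 10) = N / L ^ 8 := by field_simp
    linarith
  obtain ⟨g, hg⟩ : ∃ g : ℕ → ℕ → ℝ, g = fun k h => if M * h ∈ F k then 2 * M * (C₀ * Fw 0 (M * h) ^ C₀) else
    2 * Pw w * (Fw w h - 1) + 4 * δ * Pw w := ⟨_, rfl⟩
  have hFw1 : ∀ h, 0 ≤ 2 * Pw w * (Fw w h - 1) := fun h => by
    have := one_le_Fw w h
    apply mul_nonneg (by linarith) (by linarith)
  have hg0 : ∀ k h, 0 ≤ g k h := by
    intro k h
    rw [hg]
    simp only
    have a1 := one_le_Fw 0 (M * h)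
    have a2 := hFw1 h
    split_ifs
    · positivity
    · have : 0 ≤ 4 * δ * Pw w := by positivity
      linarith
  have hWh : ∀ k h, k + h < R → M * h ≤ N := by
    intro k h hkh
    have a3 : M * h ≤ M * R := Nat.mul_le_mul_left _ (by omega)
    omega
  -- the primes
  obtain ⟨A, hA⟩ : ∃ A : Finset ℕ, A = (range R).filter fun k => (n k).Prime := ⟨_, rfl⟩
  obtain ⟨u, hu⟩ : ∃ u : ℝ, u = Pw w * R / L := ⟨_, rfl⟩
  have hu0 : 0 < u := by rw [hu]; positivity
  have hAc : (1 - η) * u ≤ A.card := by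
    have a1 := g9 ρ hρc (M * X + ρ - 1) (M * R) (by omega) (by
      rw [← hL, pow_one]
      have a2 : (N : ℝ) ≤ 8 * M * R := by
        rw [div_le_iff₀ (by positivity)] at hRr
        linarith
      push_cast
      have a3 : (8 : ℝ) ≤ L := by linarith
      have : (M : ℝ) * R * 8 ≤ M * R * L := mul_le_mul_of_nonneg_left a3 (by positivity)
      linarith) (by omega)
    have a2 : ((Da M ρ (M * X + ρ - 1) (M * R) : ℕ) : ℝ) ≤ A.card := by
      rw [hA, hn]
      exact_mod_cast A_card M ρ X R (by omega) hX1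
    rw [← hL] at a1
    have a3 : ((M * R : ℕ) : ℝ) / Nat.totient M / L = u := by
      rw [hu, ← hMφ]
      push_cast
      ring
    have a4 : K2 * ((((M * R : ℕ) : ℝ) / Nat.totient M) / L ^ 2) ≤ η * u := by
      have b1 : (((M * R : ℕ) : ℝ) / Nat.totient M) / L ^ 2 = u / L := by
        rw [← a3]
        field_simp
      rw [b1, mul_div_assoc']
      rw [div_le_iff₀ hL0]
      have := mul_le_mul_of_nonneg_right hLK hu0.le
      linarith
    rw [a3] at a1
    linarith
  have hA0 : (0 : ℝ) < A.card := lt_of_lt_of_le (mul_pos (by linarith) hu0) hAc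
  have hne : A.Nonempty := by
    rw [← card_pos]
    exact_mod_cast hA0
  have hAR : A ⊆ range R := by rw [hA]; exact filter_subset _ _
  have hAk : ∀ k ∈ A, k < R ∧ (n k).Prime := by
    intro k hk
    rw [hA, mem_filter, mem_range] at hk
    exact hk
  refine ⟨n, A, ?_, fun k hk => ?_, ?_, hU, fun k hk => hcd k (hAk k hk).1, fun k hk => hemp k (hAk k hk).1, ?_⟩
  · refine le_trans ?_ hAc
    have a1 : (N : ℝ) / (8 * M * L) ≤ u := by
      rw [hu, div_le_div_iff₀ (by positivity) hL0]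
      have a2 : (N : ℝ) ≤ 8 * M * R := by
        rw [div_le_iff₀ (by positivity)] at hRr
        linarith
      have a3 : (N : ℝ) * L ≤ (8 * M * R) * L := mul_le_mul_of_nonneg_right a2 hL0.le
      have a4 : (8 * M * R) * L ≤ Pw w * ((8 * M * R) * L) := le_mul_of_one_le_left (by positivity) hP
      linarith
    have a2 : (N : ℝ) / (16 * M * L) = (N / (8 * M * L)) / 2 := by field_simp; norm_num
    rw [a2]
    nlinarith
  · obtain ⟨b1, b2⟩ := hAk k hk
    refine ⟨b2.one_lt.le, (hnk k b1).2, b2, ?_⟩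
    rw [hn]
    simp only
    have := (Nat.modEq_zero_iff_dvd.2 (dvd_mul_right M (X + k))).add_right ρ
    rwa [zero_add] at this
  · intro k k' hkk
    rw [hn] at hkk
    simp only at hkk
    have := Nat.eq_of_mul_eq_mul_left (by omega : 0 < M) (Nat.add_right_cancel hkk)
    omega
  apply secA w M q c b n (fun k h => by rw [hn]; ring) R A hAR hne L δ K S hcd hemp hU (fun k h => Pw w * (g k h / L ^ 2)) _
    (40 * η) (1 / 2) (by norm_num) _
  · -- the coordinates
    intro k h hh hkh j hj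
    have hk : k < R := by omega
    have e0 : n (k + h) = n k + M * h := by rw [hn]; ring
    have hcd2 : Cr w M L δ K q (c j) (b j) (n k + M * h) := by
      rw [← e0]
      exact hcd (k + h) hkh j hj
    by_cases hmem : M * h ∈ F k
    · have e : g k h = 2 * M * (C₀ * Fw 0 (M * h) ^ C₀) := by rw [hg]; simp only; rw [if_pos hmem]
      rw [e]
      have a0 := one_le_Fw 0 (M * h)
      have a1 := (hcd k hk j hj).bad hcd2 (C₀ * Fw 0 (M * h) ^ C₀) (by positivity) (by
        have := g2 (n k + b j) q (M * h) hqa hqN (Nat.succ_le_of_lt (Nat.mul_pos (by omega) (by omega)))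
        rw [← hL] at this
        refine le_trans ?_ this
        exact_mod_cast Ca_le_Cc M (n k + c j) (n k + b j) q (M * h))
      refine a1.trans (mul_le_mul_of_nonneg_right (Real.exp_le_exp.2 ?_) (Nat.cast_nonneg _))
      have a2 : 0 ≤ 2 * M * (C₀ * Fw 0 (M * h) ^ C₀) / L ^ 2 := by positivity
      nlinarith
    · have e : g k h = 2 * Pw w * (Fw w h - 1) + 4 * δ * Pw w := by rw [hg]; simp only; rw [if_neg hmem]
      rw [e]
      have hnE : M * h ∉ E k j := by
        intro hmE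
        apply hmem
        rw [hF]
        exact mem_union_left _ (mem_biUnion.2 ⟨j, hj, hmE⟩)
      have a1 := (hE k j hk).2 (M * h) (Nat.succ_le_of_lt (Nat.mul_pos (by omega) (by omega))) (hWh k h hkh) hnE (n k + c j)
        ((hcop k j).2 hj) (by
          have := (hcop (k + h) j).2 hj
          rw [e0] at this
          rw [show n k + c j + M * h = n k + M * h + c j by ring]
          exact this)
      rw [Fw_mulM w M h (by omega) hM hh] at a1
      have a2 := (hcd k hk j hj).good hcd2 (Fw w h) (one_le_Fw w h) a1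
      rw [← mul_div_assoc]
      exact a2
  · -- the sums
    have hRL : (R : ℝ) ^ 2 / L ^ 2 ≤ u ^ 2 := by
      have : u ^ 2 = Pw w ^ 2 * ((R : ℝ) ^ 2 / L ^ 2) := by rw [hu]; field_simp
      rw [this]
      exact le_mul_of_one_le_left (by positivity) (one_le_pow₀ hP)
    have b1 : (R : ℝ) * Real.exp (S.card * ((1 + 3 * δ) * (Pw w / L))) ≤ η * u ^ 2 := by
      have c1 : (S.card : ℝ) * ((1 + 3 * δ) * (Pw w / L)) ≤ L - ε / 2 * L := by
        have d0 : (S.card : ℝ) * ((1 + 3 * δ) * (Pw w / L)) = (Pw w * S.card) * ((1 + 3 * δ) / L) := by ring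
        rw [d0]
        have d1 : (Pw w * S.card : ℝ) * ((1 + 3 * δ) / L) ≤ ((1 - ε) * L ^ 2) * ((1 + 3 * δ) / L) :=
          mul_le_mul_of_nonneg_right hm (by positivity)
        have d2 : ((1 - ε) * L ^ 2) * ((1 + 3 * δ) / L) = ((1 - ε) * (1 + 3 * δ)) * L := by field_simp
        have d3 : (1 - ε) * (1 + 3 * δ) ≤ 1 - ε / 2 := by nlinarith
        have d4 := mul_le_mul_of_nonneg_right d3 hL0.le
        linarith
      have c2 : Real.exp (S.card * ((1 + 3 * δ) * (Pw w / L))) ≤ η * (R / L ^ 2) := by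
        refine (Real.exp_le_exp.2 c1).trans ?_
        rw [Real.exp_sub, hL, Real.exp_log hN0, ← hL]
        have d1 : 8 * M / η * L ^ 2 ≤ Real.exp (ε / 2 * L) := by
          have f1 : Real.exp (ε / 2 * L) = Real.exp (ε / 2 * L / 3) ^ 3 := by
            rw [← Real.exp_nat_mul]
            congr 1
            push_cast
            ring
          have f2 : ε / 2 * L / 3 ≤ Real.exp (ε / 2 * L / 3) := by
            have := Real.add_one_le_exp (ε / 2 * L / 3)
            linarith
          have f3 := pow_le_pow_left₀ (by positivity : 0 ≤ ε / 2 * L / 3) f2 3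
          rw [f1]
          refine le_trans ?_ f3
          rw [div_le_iff₀ (by positivity)] at g5
          have f4 := mul_le_mul_of_nonneg_right g5 (by positivity : 0 ≤ L ^ 2)
          have f5 : (ε / 2 * L / 3) ^ 3 = L * ε ^ 3 * L ^ 2 / 216 := by ring
          rw [f5]
          linarith
        rw [div_le_iff₀ (Real.exp_pos _)]
        have d2 : (N : ℝ) = (η * ((N / (8 * M)) / L ^ 2)) * (8 * M / η * L ^ 2) := by field_simp
        calc (N : ℝ) = (η * ((N / (8 * M)) / L ^ 2)) * (8 * M / η * L ^ 2) := d2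
          _ ≤ (η * (R / L ^ 2)) * Real.exp (ε / 2 * L) := by
              apply mul_le_mul _ d1 (by positivity) (by positivity)
              exact mul_le_mul_of_nonneg_left (div_le_div_of_nonneg_right hRr (by positivity)) hη.le
      calc (R : ℝ) * Real.exp (S.card * ((1 + 3 * δ) * (Pw w / L))) ≤ R * (η * (R / L ^ 2)) := mul_le_mul_of_nonneg_left c2 hRr0.le
        _ = η * ((R : ℝ) ^ 2 / L ^ 2) := by ring
        _ ≤ _ := mul_le_mul_of_nonneg_left hRL hη.le
    obtain ⟨a', ha'⟩ : ∃ a' : ℕ → ℕ → ℝ, a' = fun k h => if (n k).Prime ∧ (n k + M * h).Prime then 1 else 0 := ⟨_, rfl⟩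
    have ha0 : ∀ k h, 0 ≤ a' k h ∧ a' k h ≤ 1 := by
      intro k h
      rw [ha']
      simp only
      split_ifs <;> norm_num
    have b2 : ∀ k ∈ range R, ∀ h ∈ Icc 1 (R - 1 - k), (if k ∈ A ∧ k + h ∈ A then Real.exp (S.card * (Pw w * (g k h / L ^ 2))) else 0) ≤
        (if M * h ∈ F k then Real.exp (2 * M * C₀ * Fw 0 (M * h) ^ C₀) else 0) +
          (1 + η) * (if M * h ∈ Es then 0 else Real.exp (2 * Pw w * (Fw w h - 1)) * a' k h) := by
      intro k hk h hh
      rw [mem_range] at hk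
      rw [mem_Icc] at hh
      have e0 : n (k + h) = n k + M * h := by rw [hn]; ring
      have d1 : 0 ≤ (1 + η) * (if M * h ∈ Es then 0 else Real.exp (2 * Pw w * (Fw w h - 1)) * a' k h) := by
        split_ifs
        · rw [mul_zero]
        · have := (ha0 k h).1
          positivity
      by_cases hkA : k ∈ A ∧ k + h ∈ A
      · rw [if_pos hkA]
        have c1 : Real.exp (S.card * (Pw w * (g k h / L ^ 2))) ≤ Real.exp (g k h) := by
          apply Real.exp_le_exp.2
          have : (Pw w * S.card : ℝ) * (g k h / L ^ 2) ≤ L ^ 2 * (g k h / L ^ 2) :=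
            mul_le_mul_of_nonneg_right hm2P (div_nonneg (hg0 k h) (by positivity))
          have e1 : (S.card : ℝ) * (Pw w * (g k h / L ^ 2)) = (Pw w * S.card : ℝ) * (g k h / L ^ 2) := by ring
          rw [e1]
          refine this.trans (le_of_eq ?_)
          field_simp
        refine c1.trans ?_
        by_cases hmem : M * h ∈ F k
        · have e : g k h = 2 * M * C₀ * Fw 0 (M * h) ^ C₀ := by rw [hg]; simp only; rw [if_pos hmem]; ring
          rw [if_pos hmem, e]
          linarith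
        · have e : g k h = 4 * δ * Pw w + 2 * Pw w * (Fw w h - 1) := by rw [hg]; simp only; rw [if_neg hmem]; ring
          have hEsn : M * h ∉ Es := by
            intro hmE
            apply hmem
            rw [hF]
            exact mem_union_right _ hmE
          have ha1 : a' k h = 1 := by
            rw [ha']
            simp only
            rw [if_pos]
            have f1 := (hAk (k + h) hkA.2).2
            rw [e0] at f1
            exact ⟨(hAk k hkA.1).2, f1⟩
          rw [if_neg hmem, if_neg hEsn, ha1, mul_one, e, zero_add, Real.exp_add]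
          exact mul_le_mul_of_nonneg_right hδη (Real.exp_pos _).le
      · rw [if_neg hkA]
        apply add_nonneg _ d1
        split_ifs
        · exact (Real.exp_pos _).le
        · exact le_rfl
    have b3 : ∑ k ∈ range R, ∑ h ∈ Icc 1 (R - 1 - k), (if k ∈ A ∧ k + h ∈ A then Real.exp (S.card * (Pw w * (g k h / L ^ 2))) else 0) ≤
        ∑ k ∈ range R, ∑ h ∈ Icc 1 (R - 1 - k), (if M * h ∈ F k then Real.exp (2 * M * C₀ * Fw 0 (M * h) ^ C₀) else 0) +
        (1 + η) * ∑ k ∈ range R, ∑ h ∈ Icc 1 (R - 1 - k), (if M * h ∈ Es then 0 else Real.exp (2 * Pw w * (Fw w h - 1)) * a' k h) := by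
      rw [mul_sum, ← sum_add_distrib]
      apply sum_le_sum
      intro k hk
      rw [mul_sum, ← sum_add_distrib]
      exact sum_le_sum fun h hh => b2 k hk h hh
    -- the exceptional differences
    have b4 : ∑ k ∈ range R, ∑ h ∈ Icc 1 (R - 1 - k), (if M * h ∈ F k then Real.exp (2 * M * C₀ * Fw 0 (M * h) ^ C₀) else 0) ≤
        η * u ^ 2 := by
      have c1 : ∀ k ∈ range R, ∑ h ∈ Icc 1 (R - 1 - k), (if M * h ∈ F k then Real.exp (2 * M * C₀ * Fw 0 (M * h) ^ C₀) else 0) ≤
          η * (R / L ^ 2) := by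
        intro k hk
        rw [mem_range] at hk
        rw [← sum_filter]
        have c6 := bad_sum M N (by omega) (2 * M * C₀) C₀ Km (h3 N) (F k) (R - 1 - k) (by
          rcases Nat.eq_zero_or_pos (R - 1 - k) with h0 | h0
          · rw [h0]; omega
          · exact hWh k (R - 1 - k) (by omega)) (L ^ 3) (by positivity)
        refine c6.trans ?_
        have c7 := hFc k hk
        have d1 : L ^ 3 * (F k).card / 2 ≤ N / L ^ 5 := by
          have : L ^ 3 * (F k).card ≤ L ^ 3 * (2 * (N / L ^ 8)) := mul_le_mul_of_nonneg_left c7 (by positivity)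
          have e1 : L ^ 3 * (2 * (N / L ^ 8)) = 2 * (N / L ^ 5) := by field_simp
          linarith
        have d2 : (N : ℝ) / L ^ 5 ≤ N / L ^ 3 := by
          apply div_le_div_of_nonneg_left hN0.le (by positivity)
          exact pow_le_pow_right₀ hL1 (by norm_num)
        have d3 : Km * N / (2 * L ^ 3) ≤ Km * (N / L ^ 3) := by
          have : Km * N / (2 * L ^ 3) = Km * (N / L ^ 3) / 2 := by field_simp
          rw [this]
          have : 0 ≤ Km * (N / L ^ 3) := by positivity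
          linarith
        have d4 : (1 + Km) * (N / L ^ 3) ≤ η * (R / L ^ 2) := by
          have f1 : 8 * M * (1 + Km) ≤ η * L := by
            have : 8 * M * (1 + Km) / η ≤ L := by linarith
            rw [div_le_iff₀ hη] at this
            linarith
          have f2 : (1 + Km) * (N / L ^ 3) = (8 * M * (1 + Km)) * ((N / (8 * M)) / L ^ 3) := by field_simp
          rw [f2]
          calc (8 * M * (1 + Km)) * ((N / (8 * M)) / L ^ 3) ≤ (η * L) * (R / L ^ 3) :=
                mul_le_mul f1 (div_le_div_of_nonneg_right hRr (by positivity)) (by positivity) (by positivity)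
            _ = _ := by field_simp
        linarith
      refine (sum_le_sum c1).trans ?_
      rw [sum_const, card_range, nsmul_eq_mul]
      calc (R : ℝ) * (η * (R / L ^ 2)) = η * ((R : ℝ) ^ 2 / L ^ 2) := by ring
        _ ≤ _ := mul_le_mul_of_nonneg_left hRL hη.le
    -- the good differences
    have b5 : ∑ k ∈ range R, ∑ h ∈ Icc 1 (R - 1 - k), (if M * h ∈ Es then 0 else Real.exp (2 * Pw w * (Fw w h - 1)) * a' k h) ≤
        (1 + δ) * (1 / 2 + 4 * η) * u ^ 2 := by
      rw [swap_sum]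
      obtain ⟨pc, hpc⟩ : ∃ pc : ℕ → ℝ, pc = fun h => if M * h ∈ Es then 0 else ∑ k ∈ range (R - h), a' k h := ⟨_, rfl⟩
      have c1 : ∀ h ∈ Icc 1 (R - 1), ∑ k ∈ range (R - h), (if M * h ∈ Es then 0 else Real.exp (2 * Pw w * (Fw w h - 1)) * a' k h) =
          Real.exp (2 * Pw w * (Fw w h - 1)) * pc h := by
        intro h _
        rw [hpc]
        simp only
        split_ifs
        · rw [sum_const_zero, mul_zero]
        · rw [mul_sum]
      rw [sum_congr rfl c1]
      obtain ⟨V, hV⟩ : ∃ V : ℝ, V = (1 + δ) * (Pw w ^ 2 / L ^ 2) := ⟨_, rfl⟩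
      have hV0 : 0 ≤ V := by rw [hV]; positivity
      have hBR2 : B ≤ R := by
        rcases Nat.lt_or_ge G 2 with h2 | h2
        · exfalso
          have : (G : ℝ) ≤ 1 := by exact_mod_cast (by omega : G ≤ 1)
          nlinarith
        · have : 2 * B ≤ G * B := Nat.mul_le_mul_right _ h2
          omega
      have c2 := good_pairs R B η V (Pw w) hη.le hV0 hP w hsh hBR2 pc (by
        intro h hh
        rw [mem_Icc] at hh
        have f0 : 0 ≤ V * Fw w h * ((R - h : ℕ) + B) := by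
          have := one_le_Fw w h
          positivity
        rw [hpc]
        simp only
        split_ifs with hmem
        · exact f0
        · have f1 : ∑ k ∈ range (R - h), a' k h = (((range (R - h)).filter fun k => (M * (X + k) + ρ).Prime ∧ (M * (X + k) + ρ + M * h).Prime).card : ℝ) := by
            rw [ha', hn, card_filter]
            push_cast
            rfl
          rw [f1]
          apply pcount M ρ X R G B h (by omega) hB1 hGB (V * Fw w h) (mul_nonneg hV0 (by linarith [one_le_Fw w h])) _ hX1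
          intro i hi
          have hnE : M * h ∉ Eb i := by
            intro hmE
            apply hmem
            rw [hEs]
            exact mem_biUnion.2 ⟨i, mem_range.2 hi, hmE⟩
          have f2 := (hEb i hi).2 (M * h) (Nat.succ_le_of_lt (Nat.mul_pos (by omega) (by omega))) (hWh 0 h (by omega)) hnE ρ hρc (by
            exact (Nat.coprime_add_mul_left_left _ _ _).2 hρc)
          rw [Fw_mulM w M h (by omega) hM hh.1] at f2
          refine f2.trans (le_of_eq ?_)
          rw [hV, ← hMφ]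
          push_cast
          field_simp)
      refine c2.trans ?_
      have f1 : V * (R : ℝ) ^ 2 = (1 + δ) * u ^ 2 := by
        rw [hV, hu]
        field_simp
      have f2 : (B : ℝ) * R ≤ η * (R : ℝ) ^ 2 := by
        have e1 : (G : ℝ) * B ≤ 2 * R := by exact_mod_cast hBR
        have e2 : 2 * (B : ℝ) ≤ η * G * B := mul_le_mul_of_nonneg_right hGη (Nat.cast_nonneg _)
        have e3 : η * (G * B) ≤ η * (2 * R) := mul_le_mul_of_nonneg_left e1 hη.le
        have e4 : (B : ℝ) ≤ η * R := by linarith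
        nlinarith
      have f3 : V * ((R : ℝ) ^ 2 / 2 + B * R + 2 * η * (R : ℝ) ^ 2) ≤ V * ((1 / 2 + 3 * η) * (R : ℝ) ^ 2) :=
        mul_le_mul_of_nonneg_left (by linarith) hV0
      have f4 : V * ((1 / 2 + 3 * η) * (R : ℝ) ^ 2) = (1 / 2 + 3 * η) * ((1 + δ) * u ^ 2) := by rw [← f1]; ring
      have f5 : 0 ≤ (1 + δ) * u ^ 2 := by positivity
      nlinarith
    -- the conclusion
    have b6 : (1 + η) * ((1 + δ) * (1 / 2 + 4 * η) * u ^ 2) ≤ (1 / 2 + 6 * η) * u ^ 2 := by
      have s0 : η * δ ≤ η * 1 := mul_le_mul_of_nonneg_left (by linarith) hη.le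
      have s1 : (1 + η) * (1 + δ) ≤ 1 + 3 * η := by
        have : (1 + η) * (1 + δ) = 1 + η + δ + η * δ := by ring
        linarith
      have s2 := mul_le_mul_of_nonneg_right s1 (by linarith : 0 ≤ 1 / 2 + 4 * η)
      have s3 : η * η ≤ 1 / 200 * η := mul_le_mul_of_nonneg_right hη1 hη.le
      have s4 : (1 + 3 * η) * (1 / 2 + 4 * η) = 1 / 2 + 11 / 2 * η + 12 * (η * η) := by ring
      have e1 : (1 + η) * (1 + δ) * (1 / 2 + 4 * η) ≤ 1 / 2 + 6 * η := by linarith
      have e2 := mul_le_mul_of_nonneg_right e1 (sq_nonneg u)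
      linarith
    have b7 := mul_le_mul_of_nonneg_left b5 (by linarith : 0 ≤ 1 + η)
    have b8 : ((1 - η) * u) ^ 2 ≤ (A.card : ℝ) ^ 2 := pow_le_pow_left₀ (mul_nonneg (by linarith) hu0.le) hAc 2
    have b9 : (1 + 15 * η) * u ^ 2 ≤ (1 + 40 * η) * (A.card : ℝ) ^ 2 := by
      have e1 : (1 + 40 * η) * ((1 - η) * u) ^ 2 ≤ (1 + 40 * η) * (A.card : ℝ) ^ 2 := mul_le_mul_of_nonneg_left b8 (by linarith)
      have s1 : 1 - 2 * η ≤ (1 - η) ^ 2 := by
        have : (1 - η) ^ 2 = 1 - 2 * η + η ^ 2 := by ring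
        have := sq_nonneg η
        linarith
      have s2 := mul_le_mul_of_nonneg_left s1 (by linarith : 0 ≤ 1 + 40 * η)
      have s3 : η * η ≤ 1 / 200 * η := mul_le_mul_of_nonneg_right hη1 hη.le
      have s4 : (1 + 40 * η) * (1 - 2 * η) = 1 + 38 * η - 80 * (η * η) := by ring
      have e2 : (1 + 15 * η) ≤ (1 + 40 * η) * (1 - η) ^ 2 := by linarith
      have e3 := mul_le_mul_of_nonneg_right e2 (sq_nonneg u)
      have e4 : (1 + 40 * η) * ((1 - η) * u) ^ 2 = (1 + 40 * η) * (1 - η) ^ 2 * u ^ 2 := by ring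
      linarith
    have b10 : 0 ≤ η * u ^ 2 := by positivity
    linarith

end Pool.Agent.Run7.h931.PS
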