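import Pool.Agent.Run7.h931.PS.Cnt

/-!
# Composites after primes, part 2: the second moment
-/

set_option autoImplicit false

namespace Pool.Agent.Run7.h931.PS

open Finset Filter
open Pool.Agent.Run7.h931.RS (Pw Fw one_le_Pw one_le_Fw wt wt_nonneg wt_sum ev_log cheb pairs_sum sieve moments bad_sum tri Cc)
open Pool.Agent.Run7.h931.RL (Ca Da cls hitc hitc_sub hitc_empty Cr cr_ev cls_pos prod_expS wt_ones Fw_mulM Ca_le_Cc hl_ap pa_lo tot_P)

/-- the second moment over a set of integers -/
theorem secA {m : ℕ} (w M q : ℕ) (c b : Fin m → ℕ) (n : ℕ → ℕ) (hn : ∀ k h, n (k + h) = n k + M * h) (R : ℕ)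
    (A : Finset ℕ) (hA : A ⊆ range R) (hne : A.Nonempty)
    (L δ K : ℝ) (S : Finset (Fin m)) (hc : ∀ k < R, ∀ j ∈ S, Cr w M L δ K q (c j) (b j) (n k))
    (he : ∀ k < R, ∀ j ∉ S, hitc M (c j) (b j) q (n k) = ∅) (hU : ∀ j, 0 < (cls M (c j) (b j) q).card) (g : ℕ → ℕ → ℝ)
    (hg : ∀ k h, 1 ≤ h → k + h < R → ∀ j ∈ S, ∑ v ∈ cls M (c j) (b j) q,
      wt (cls M (c j) (b j) q) (hitc M (c j) (b j) q (n k)) v *
      wt (cls M (c j) (b j) q) (hitc M (c j) (b j) q (n k + M * h)) v ≤ Real.exp (g k h) * (cls M (c j) (b j) q).card)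
    (η τ : ℝ) (hτ : 0 < τ)
    (hsum : R * Real.exp (S.card * ((1 + 3 * δ) * (Pw w / L))) +
      2 * ∑ k ∈ range R, ∑ h ∈ Icc 1 (R - 1 - k), (if k ∈ A ∧ k + h ∈ A then Real.exp (S.card * g k h) else 0) ≤
        (1 + η) * (A.card : ℝ) ^ 2) :
    (((Fintype.piFinset fun j => cls M (c j) (b j) q).filter fun s => τ * A.card <
      |∑ k ∈ A, ∏ j, wt (cls M (c j) (b j) q) (hitc M (c j) (b j) q (n k)) (s j) - A.card|).card : ℝ) * τ ^ 2 ≤
      η * ∏ j, ((cls M (c j) (b j) q).card : ℝ) := by
  classical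
  obtain ⟨e, hee⟩ : ∃ e : ℕ → ℕ → ℝ, e = fun k k' => if k = k' then Real.exp (S.card * ((1 + 3 * δ) * (Pw w / L))) else
      (if min k k' ∈ A ∧ max k k' ∈ A then Real.exp (S.card * g (min k k') (max k k' - min k k')) else 0) := ⟨_, rfl⟩
  have h0 : ∀ k, e k k = Real.exp (S.card * ((1 + 3 * δ) * (Pw w / L))) := fun k => by rw [hee]; simp
  have h1 : ∀ k h, 1 ≤ h → e k (k + h) = if k ∈ A ∧ k + h ∈ A then Real.exp (S.card * g k h) else 0 := fun k h hh => by
    rw [hee]
    simp only
    rw [if_neg (by omega), min_eq_left (by omega), max_eq_right (by omega), Nat.add_sub_cancel_left]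
  have h2 : ∀ k h, 1 ≤ h → e (k + h) k = if k ∈ A ∧ k + h ∈ A then Real.exp (S.card * g k h) else 0 := fun k h hh => by
    rw [hee]
    simp only
    rw [if_neg (by omega), min_eq_right (by omega), max_eq_left (by omega), Nat.add_sub_cancel_left]
  have henn : ∀ k k', 0 ≤ e k k' := by
    intro k k'
    rw [hee]
    simp only
    split_ifs
    · exact (Real.exp_pos _).le
    · exact (Real.exp_pos _).le
    · exact le_rfl
  have hwn : ∀ k, ∀ j v, 0 ≤ wt (cls M (c j) (b j) q) (hitc M (c j) (b j) q (n k)) v := fun k j v =>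
    wt_nonneg _ _ (hitc_sub M (c j) (b j) q (n k)) v
  have hout : ∀ k < R, ∀ k' < R, ∀ j ∉ S, ∑ v ∈ cls M (c j) (b j) q, wt (cls M (c j) (b j) q) (hitc M (c j) (b j) q (n k)) v *
      wt (cls M (c j) (b j) q) (hitc M (c j) (b j) q (n k')) v ≤ (cls M (c j) (b j) q).card := by
    intro k hk k' hk' j hj
    rw [he k hk j hj, he k' hk' j hj, wt_ones _ (hU j)]
  have hAR : ∀ k ∈ A, k < R := fun k hk => mem_range.1 (hA hk)
  exact cheb (fun j => cls M (c j) (b j) q) A hne
    (fun k j v => wt (cls M (c j) (b j) q) (hitc M (c j) (b j) q (n k)) v) (fun k hk j => by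
      have hk' := hAR k hk
      apply wt_sum
      · exact subset_rfl
      · exact hitc_sub M (c j) (b j) q (n k)
      · by_cases hj : j ∈ S
        · have hcd := hc k hk' j hj
          have h3 := hcd.theta
          have h4 : (0 : ℝ) < (cls M (c j) (b j) q).card := by exact_mod_cast hU j
          have h5 := hcd.hδ1
          have h6 : ((hitc M (c j) (b j) q (n k)).card : ℝ) < (cls M (c j) (b j) q).card := by nlinarith
          exact_mod_cast h6
        · rw [he k hk' j hj, card_empty]
          exact hU j) e (fun k hkA k' hkA' => by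
      have hk := hAR k hkA
      have hk' := hAR k' hkA'
      rcases lt_trichotomy k k' with hkk | hkk | hkk
      · obtain ⟨h, rfl⟩ : ∃ h, k' = k + h := ⟨k' - k, by omega⟩
        rw [h1 k h (by omega), if_pos ⟨hkA, hkA'⟩]
        apply prod_expS S
        · exact fun j => sum_nonneg fun v _ => mul_nonneg (hwn k j v) (hwn (k + h) j v)
        · intro j hj
          rw [hn]
          exact hg k h (by omega) hk' j hj
        · exact hout k hk (k + h) hk'
      · subst hkk
        rw [h0]
        apply prod_expS S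
        · exact fun j => sum_nonneg fun v _ => mul_nonneg (hwn k j v) (hwn k j v)
        · intro j hj
          exact (hc k hk j hj).diag
        · exact hout k hk k hk
      · obtain ⟨h, rfl⟩ : ∃ h, k = k' + h := ⟨k - k', by omega⟩
        rw [h2 k' h (by omega), if_pos ⟨hkA', hkA⟩]
        apply prod_expS S
        · exact fun j => sum_nonneg fun v _ => mul_nonneg (hwn (k' + h) j v) (hwn k' j v)
        · intro j hj
          rw [hn, sum_congr rfl fun v _ => mul_comm _ _]
          exact hg k' h (by omega) hk j hj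
        · exact hout (k' + h) hk k' hk') η τ hτ (by
      have f1 : ∑ k ∈ A, ∑ k' ∈ A, e k k' ≤ ∑ k ∈ range R, ∑ k' ∈ range R, e k k' := by
        refine le_trans (sum_le_sum fun k _ => sum_le_sum_of_subset_of_nonneg hA fun k' _ _ => henn k k') ?_
        exact sum_le_sum_of_subset_of_nonneg hA fun k _ _ => sum_nonneg fun k' _ => henn k k'
      refine f1.trans ?_
      rw [pairs_sum R _ (fun k h => if k ∈ A ∧ k + h ∈ A then Real.exp (S.card * g k h) else 0) e h0 h1 h2]
      exact hsum)

end Pool.Agent.Run7.h931.PS
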